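import Mathlib

/-! Functions of a matrix defined by an additive function of its eigenvalues are tangent to the Zariski
closure of the powers of the matrix. -/

set_option autoImplicit false

namespace Pool.Agent.W2helper27.OP

open Matrix Polynomial Module

section lin

variable {k : Type} [Field k] {V : Type} [AddCommGroup V] [Module k V] [FiniteDimensional k V]

lemma exists_interp (s : Finset k) (N : ℕ) (w : k → k) :
    ∃ q : k[X], ∀ β ∈ s, (X - C β) ^ N ∣ q - C (w β) := by
  obtain ⟨q, hq⟩ := Ideal.exists_forall_sub_mem_ideal (R := k[X]) (ι := s)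
    (I := fun β => Ideal.span {(X - C (β : k)) ^ N}) (by
      intro a b hab
      change IsCoprime (Ideal.span {(X - C (a : k)) ^ N}) (Ideal.span {(X - C (b : k)) ^ N})
      rw [Ideal.isCoprime_span_singleton_iff]
      have hab' : (a : k) ≠ b := fun h => hab (Subtype.ext h)
      exact (Polynomial.isCoprime_X_sub_C_of_isUnit_sub (sub_ne_zero.2 hab').isUnit).pow)
    (fun β => C (w β))
  exact ⟨q, fun β hβ => Ideal.mem_span_singleton.1 (hq ⟨β, hβ⟩)⟩

lemma aeval_gen (G : Module.End k V) (β c : k) (q : k[X])
    (hq : (X - C β) ^ finrank k V ∣ q - C c) {u : V} (hu : u ∈ G.maxGenEigenspace β) :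
    aeval G q u = c • u := by
  obtain ⟨r, hr⟩ := hq
  have h1 : q = r * (X - C β) ^ finrank k V + C c := by rw [mul_comm r, ← hr]; ring
  have h2 : ((G - algebraMap k (Module.End k V) β) ^ finrank k V) u = 0 := by
    rw [Module.End.maxGenEigenspace_eq_genEigenspace_finrank] at hu
    have := (Module.End.mem_genEigenspace_nat.1 hu)
    rw [LinearMap.mem_ker] at this
    rw [Module.algebraMap_end_eq_smul_id]
    exact this
  rw [h1, map_add, map_mul, map_pow, map_sub, aeval_X, aeval_C, aeval_C, LinearMap.add_apply,
    Module.End.mul_apply, h2, map_zero, zero_add, Module.algebraMap_end_apply]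

variable [IsAlgClosed k]

lemma trace_aeval (G : Module.End k V) (w : k → k) (q : k[X])
    (hq : ∀ β ∈ G.charpoly.roots, (X - C β) ^ finrank k V ∣ q - C (w β)) :
    LinearMap.trace k V (aeval G q) = (G.charpoly.roots.map w).sum := by
  classical
  have hint : DirectSum.IsInternal fun β : k => G.maxGenEigenspace β :=
    DirectSum.isInternal_submodule_of_iSupIndep_of_iSup_eq_top G.independent_maxGenEigenspace
      (Module.End.iSup_maxGenEigenspace_eq_top G)
  have hmaps : ∀ β : k, Set.MapsTo (aeval G q) (G.maxGenEigenspace β) (G.maxGenEigenspace β) := by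
    intro β
    apply Module.End.mapsTo_maxGenEigenspace_of_comm
    have h := (Commute.all X q).map (aeval G)
    rwa [aeval_X] at h
  have hroot : ∀ β : k, G.maxGenEigenspace β ≠ ⊥ → β ∈ G.charpoly.roots := by
    intro β hβ
    rw [mem_roots (LinearMap.charpoly_monic G).ne_zero, ← rootMultiplicity_pos (LinearMap.charpoly_monic G).ne_zero,
      ← LinearMap.finrank_maxGenEigenspace_eq]
    rw [Module.finrank_pos_iff]
    exact (Submodule.nontrivial_iff_ne_bot).2 hβ
  have hfin : {β : k | G.maxGenEigenspace β ≠ ⊥}.Finite := by
    refine (G.charpoly.roots.toFinset.finite_toSet).subset ?_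
    intro β hβ
    simpa using hroot β hβ
  rw [LinearMap.trace_eq_sum_trace_restrict' hint hfin hmaps]
  have hsub : hfin.toFinset ⊆ G.charpoly.roots.toFinset := by
    intro β hβ
    rw [Multiset.mem_toFinset]
    exact hroot β (by simpa using hβ)
  rw [Finset.sum_multiset_map_count]
  have e : ∀ β : k, β ∈ G.charpoly.roots → LinearMap.trace k (G.maxGenEigenspace β)
      ((aeval G q).restrict (hmaps β)) = (G.charpoly.roots.count β) • w β := by
    intro β hβ
    have h1 : (aeval G q).restrict (hmaps β) = w β • LinearMap.id := by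
      apply LinearMap.ext
      intro u
      apply Subtype.ext
      exact aeval_gen G β (w β) q (hq β hβ) u.2
    rw [h1, map_smul, LinearMap.trace_id, LinearMap.finrank_maxGenEigenspace_eq, count_roots,
      smul_eq_mul, nsmul_eq_mul, mul_comm]
  refine (Finset.sum_congr rfl fun β hβ => e β (Multiset.mem_toFinset.1 (hsub hβ))).trans ?_
  refine Finset.sum_subset hsub fun β hβ hn => ?_
  rw [← e β (Multiset.mem_toFinset.1 hβ)]
  have hbot : G.maxGenEigenspace β = ⊥ := by
    by_contra h
    exact hn (by simpa using h)
  have : Subsingleton (G.maxGenEigenspace β) := (Submodule.subsingleton_iff_eq_bot).2 hbot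
  have h0 : (aeval G q).restrict (hmaps β) = 0 := by
    apply LinearMap.ext
    intro u
    exact Subsingleton.elim _ _
  rw [h0, map_zero]

lemma aeval_scalar (G : Module.End k V) (c : k) (q : k[X])
    (hq : ∀ β ∈ G.charpoly.roots, (X - C β) ^ finrank k V ∣ q - C c) :
    aeval G q = c • 1 := by
  apply LinearMap.ext
  intro u
  have hu : u ∈ ⨆ β, G.maxGenEigenspace β := by
    rw [Module.End.iSup_maxGenEigenspace_eq_top]; exact Submodule.mem_top
  induction hu using Submodule.iSup_induction' with
  | mem β u hu =>
    by_cases h0 : G.maxGenEigenspace β = ⊥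
    · rw [h0] at hu
      rw [(Submodule.mem_bot k).1 hu]
      simp
    · have hβ : β ∈ G.charpoly.roots := by
        rw [mem_roots (LinearMap.charpoly_monic G).ne_zero,
          ← rootMultiplicity_pos (LinearMap.charpoly_monic G).ne_zero,
          ← LinearMap.finrank_maxGenEigenspace_eq]
        rw [Module.finrank_pos_iff]
        exact (Submodule.nontrivial_iff_ne_bot).2 h0
      rw [aeval_gen G β c q (hq β hβ) hu]
      rfl
  | zero => simp
  | add u v _ _ hu hv => rw [map_add, hu, hv, map_add]

end lin

end Pool.Agent.W2helper27.OP
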