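import Pool.Agent.W2helper27.OP.Def

/-! Ordinary places and simple factors. -/

set_option autoImplicit false

namespace Pool.Agent.W2helper27.OP

open NumberField IsDedekindDomain Polynomial
open Pool.Agent.W401.Cheb Pool.Agent.W528.Ord
open Pool.Agent.W528.Ord.MultSystem (IsDeg1 IsOver)

section weight

variable {K : Type} [Field K] {ℓ : ℕ} [Fact ℓ.Prime] {p : ℕ} [Fact p.Prime]
  (j : AlgebraicClosure K →+* PadicAlgCl ℓ) (τ : AlgebraicClosure K →+* PadicAlgCl p)

/-- The nonzero algebraic numbers in the algebraic closure of `ℚ_ℓ`. -/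
def Mon : Submonoid (PadicAlgCl ℓ) where
  carrier := {a | ∃ β : AlgebraicClosure K, β ≠ 0 ∧ j β = a}
  one_mem' := ⟨1, one_ne_zero, map_one j⟩
  mul_mem' := by
    rintro a b ⟨α, hα, rfl⟩ ⟨β, hβ, rfl⟩
    exact ⟨α * β, mul_ne_zero hα hβ, map_mul j α β⟩

open Classical in
/-- The `p`-adic valuation of an algebraic number in the algebraic closure of `ℚ_ℓ`. -/
noncomputable def wt (a : PadicAlgCl ℓ) : PadicAlgCl ℓ :=
  if h : ∃ β : AlgebraicClosure K, β ≠ 0 ∧ j β = a then ((val (τ h.choose) : ℚ) : PadicAlgCl ℓ) else 0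

lemma wt_eq {β : AlgebraicClosure K} (hβ : β ≠ 0) : wt j τ (j β) = ((val (τ β) : ℚ) : PadicAlgCl ℓ) := by
  have h : ∃ β' : AlgebraicClosure K, β' ≠ 0 ∧ j β' = j β := ⟨β, hβ, rfl⟩
  rw [wt, dif_pos h]
  have := j.injective h.choose_spec.2
  rw [this]

lemma tau_ne {β : AlgebraicClosure K} (hβ : β ≠ 0) : τ β ≠ 0 := by
  intro h
  exact hβ (τ.injective (by rw [h, map_zero]))

lemma wt_one : wt j τ 1 = 0 := by
  have := wt_eq j τ (one_ne_zero (α := AlgebraicClosure K))
  rw [map_one] at this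
  rw [this, map_one, val_one, Rat.cast_zero]

lemma wt_mul {a b : PadicAlgCl ℓ} (ha : a ∈ Mon j) (hb : b ∈ Mon j) :
    wt j τ (a * b) = wt j τ a + wt j τ b := by
  obtain ⟨α, hα, rfl⟩ := ha
  obtain ⟨β, hβ, rfl⟩ := hb
  rw [← map_mul, wt_eq j τ (mul_ne_zero hα hβ), wt_eq j τ hα, wt_eq j τ hβ, map_mul,
    val_mul (tau_ne τ hα) (tau_ne τ hβ), Rat.cast_add]

end weight

section fam

variable {K : Type} [Field K] [NumberField K] {ℓ : ℕ} [Fact ℓ.Prime] {ι : Type}
  (A : ι → MotSystem K ℓ) {χ : GK K →* (PadicAlgCl ℓ)ˣ} {S : Finset ℕ}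
  (hA : ∀ i, (A i).IsMotive χ S) {v : HeightOneSpectrum (𝓞 K)} (hv : IsDeg1 S v)
  {γ : GK K} (hγ : IsFrob v γ) (j : AlgebraicClosure K →+* PadicAlgCl ℓ)

lemma exists_sigma {E : Type} [Field E] [NumberField E] (t : E →+* PadicAlgCl ℓ) :
    ∃ σ : E →+* AlgebraicClosure K, t = j.comp σ := by
  classical
  have hinj : Function.Injective (fun σ : E →+* AlgebraicClosure K => j.comp σ) := by
    intro σ σ' h
    apply RingHom.ext
    intro x
    exact j.injective (congrArg (fun f : E →+* PadicAlgCl ℓ => f x) h)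
  have hcard : Fintype.card (E →+* AlgebraicClosure K) = Fintype.card (E →+* PadicAlgCl ℓ) := by
    rw [NumberField.Embeddings.card, NumberField.Embeddings.card]
  have hbij := (Fintype.bijective_iff_injective_and_card _).2 ⟨hinj, hcard⟩
  obtain ⟨σ, hσ⟩ := hbij.2 t
  exact ⟨σ, hσ.symm⟩

include hA hv hγ in
lemma charpoly_rep (i : ι) (σ : (A i).E →+* AlgebraicClosure K) :
    (rep A ⟨i, j.comp σ⟩ γ).charpoly = ((A i).poly v σ).map j := by
  have h := ((hA i).isCompat v hv γ hγ).2 (j.comp σ)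
  have h1 : (rep A ⟨i, j.comp σ⟩ γ).charpoly = (A i).poly v (j.comp σ) := h
  rw [h1]
  unfold MotSystem.poly
  rw [Polynomial.map_map]
  rfl

include hA hv hγ in
lemma roots_rep (i : ι) (σ : (A i).E →+* AlgebraicClosure K) :
    (rep A ⟨i, j.comp σ⟩ γ).charpoly.roots = ((A i).poly v σ).roots.map j := by
  rw [charpoly_rep A hA hv hγ j, Splits.roots_map (IsAlgClosed.splits _)]

include hA hv hγ in
lemma root_ne (i : ι) (σ : (A i).E →+* AlgebraicClosure K) {β : AlgebraicClosure K}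
    (hβ : β ∈ ((A i).poly v σ).roots) : β ≠ 0 := by
  rintro rfl
  let j : AlgebraicClosure K →+* PadicAlgCl ℓ :=
    haveI : Algebra.IsAlgebraic ℚ (AlgebraicClosure K) := Algebra.IsAlgebraic.trans ℚ K _
    (IsAlgClosed.lift (R := ℚ) (S := AlgebraicClosure K) (M := PadicAlgCl ℓ)).toRingHom
  have h1 : (0 : PadicAlgCl ℓ) ∈ (rep A ⟨i, j.comp σ⟩ γ).charpoly.roots := by
    rw [roots_rep A hA hv hγ j, Multiset.mem_map]
    exact ⟨0, hβ, map_zero j⟩
  have h2 := isRoot_of_mem_roots h1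
  have h3 : (rep A ⟨i, j.comp σ⟩ γ).charpoly.coeff 0 = 0 := by
    rwa [coeff_zero_eq_eval_zero]
  have h4 : (rep A ⟨i, j.comp σ⟩ γ).det = 0 := by
    rw [Matrix.det_eq_sign_charpoly_coeff, h3, mul_zero]
  have h5 : IsUnit (rep A ⟨i, j.comp σ⟩ γ).det := by
    have : IsUnit ((((A i).ρ (j.comp σ) γ : Matrix.GeneralLinearGroup (Fin (A i).n) (PadicAlgCl ℓ)) :
        Matrix (Fin (A i).n) (Fin (A i).n) (PadicAlgCl ℓ)).det) :=
      (Matrix.isUnit_iff_isUnit_det _).1 (Units.isUnit _)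
    exact this
  rw [h4] at h5
  exact not_isUnit_zero h5

variable {p : ℕ} [Fact p.Prime] (τ : AlgebraicClosure K →+* PadicAlgCl p)

include hA hv hγ in
/-- **The Newton cocharacter**: there is an element of the Lie algebra of the monodromy group whose
eigenvalues are the valuations of the eigenvalues of the Frobenius. -/
lemma exists_newton : ∃ T : ∀ x : Part A, Matrix (Fin (rk A x)) (Fin (rk A x)) (PadicAlgCl ℓ),
    IsTangent (rep A) T ∧ ∀ (i : ι) (σ : (A i).E →+* AlgebraicClosure K),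
      Matrix.trace (T ⟨i, j.comp σ⟩) =
        (((((A i).poly v σ).roots.map fun β => val (τ β)).sum : ℚ) : PadicAlgCl ℓ) ∧
      Matrix.trace (T ⟨i, j.comp σ⟩ * T ⟨i, j.comp σ⟩) =
        (((((A i).poly v σ).roots.map fun β => val (τ β) ^ 2).sum : ℚ) : PadicAlgCl ℓ) ∧
      ∀ c : ℚ, (∀ β ∈ ((A i).poly v σ).roots, val (τ β) = c) →
        T ⟨i, j.comp σ⟩ = (c : PadicAlgCl ℓ) • 1 := by
  classical
  have hq : ∀ x : Part A, ∃ q : Polynomial (PadicAlgCl ℓ),
      ∀ β ∈ (rep A x γ).charpoly.roots.toFinset, (X - C β) ^ (rk A x) ∣ q - C (wt j τ β) :=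
    fun x => exists_interp _ _ _
  choose q hq using hq
  have hq' : ∀ (x : Part A), ∀ β ∈ (rep A x γ).charpoly.roots,
      (X - C β) ^ (rk A x) ∣ q x - C (wt j τ β) :=
    fun x β hβ => hq x β (Multiset.mem_toFinset.2 hβ)
  have hlin : ∀ x : Part A, Polynomial.aeval (Matrix.toLin' (rep A x γ)) (q x) =
      Matrix.toLin' (Polynomial.aeval (rep A x γ) (q x)) := by
    intro x
    exact Polynomial.aeval_algHom_apply
      (Matrix.toLinAlgEquiv' (R := PadicAlgCl ℓ) (n := Fin (rk A x))).toAlgHom (rep A x γ) (q x)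
  have hlin2 : ∀ x : Part A, Polynomial.aeval (Matrix.toLin' (rep A x γ)) (q x ^ 2) =
      Matrix.toLin' (Polynomial.aeval (rep A x γ) (q x) * Polynomial.aeval (rep A x γ) (q x)) := by
    intro x
    rw [← map_mul, ← sq]
    exact Polynomial.aeval_algHom_apply
      (Matrix.toLinAlgEquiv' (R := PadicAlgCl ℓ) (n := Fin (rk A x))).toAlgHom (rep A x γ) (q x ^ 2)
  refine ⟨fun x => Polynomial.aeval (rep A x γ) (q x), ?_, ?_⟩
  · intro f hf
    refine tangent_of_powers (fun x => rep A x γ) (Mon j) (wt j τ) ?_ (wt_one j τ)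
      (fun a ha b hb => wt_mul j τ ha hb) q hq' f ?_
    · rintro ⟨i, t⟩ β hβ
      obtain ⟨σ, rfl⟩ := exists_sigma j t
      rw [roots_rep A hA hv hγ j, Multiset.mem_map] at hβ
      obtain ⟨α, hα, rfl⟩ := hβ
      exact ⟨α, root_ne A hA hv hγ i σ hα, rfl⟩
    · intro m
      have h1 := hf (γ ^ m)
      have h2 : (fun c : Σ x : Part A, Fin (rk A x) × Fin (rk A x) => rep A c.1 (γ ^ m) c.2.1 c.2.2) =
          pt ((fun x => rep A x γ) ^ m) := by
        funext c
        change rep A c.1 (γ ^ m) c.2.1 c.2.2 = ((fun x => rep A x γ) ^ m) c.1 c.2.1 c.2.2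
        rw [Pi.pow_apply]
        have h3 : rep A c.1 (γ ^ m) = rep A c.1 γ ^ m := by
          change (((A c.1.1).ρ c.1.2 (γ ^ m) : Matrix.GeneralLinearGroup _ _) :
            Matrix (Fin (A c.1.1).n) (Fin (A c.1.1).n) (PadicAlgCl ℓ)) = _
          rw [map_pow, Units.val_pow_eq_pow_val]
          rfl
        rw [h3]
      rw [← h2]
      exact h1
  · intro i σ
    have hroots : (Matrix.toLin' (rep A ⟨i, j.comp σ⟩ γ)).charpoly.roots =
        ((A i).poly v σ).roots.map j := by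
      rw [Matrix.charpoly_toLin', roots_rep A hA hv hγ j]
    have hfr : Module.finrank (PadicAlgCl ℓ) (Fin (rk A ⟨i, j.comp σ⟩) → PadicAlgCl ℓ) =
        rk A ⟨i, j.comp σ⟩ := Module.finrank_fin_fun _
    have hdiv : ∀ β ∈ (Matrix.toLin' (rep A ⟨i, j.comp σ⟩ γ)).charpoly.roots,
        (X - C β) ^ Module.finrank (PadicAlgCl ℓ) (Fin (rk A ⟨i, j.comp σ⟩) → PadicAlgCl ℓ) ∣
          q ⟨i, j.comp σ⟩ - C (wt j τ β) := by
      intro β hβ
      rw [hfr]
      rw [Matrix.charpoly_toLin'] at hβ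
      exact hq' _ β hβ
    have hsum : ∀ F : PadicAlgCl ℓ → PadicAlgCl ℓ, ∀ F' : ℚ → ℚ, (∀ c : ℚ, F (c : PadicAlgCl ℓ) = (F' c : ℚ)) →
        ((((A i).poly v σ).roots.map j).map fun a => F (wt j τ a)).sum =
        (((((A i).poly v σ).roots.map fun β => F' (val (τ β))).sum : ℚ) : PadicAlgCl ℓ) := by
      intro F F' hF
      rw [Multiset.map_map]
      have e1 : (((A i).poly v σ).roots.map ((fun a => F (wt j τ a)) ∘ j)) =
          (((A i).poly v σ).roots.map fun β => ((F' (val (τ β)) : ℚ) : PadicAlgCl ℓ)) := by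
        refine Multiset.map_congr rfl fun β hβ => ?_
        rw [Function.comp_apply, wt_eq j τ (root_ne A hA hv hγ i σ hβ), hF]
      rw [e1]
      have e2 := (Rat.castHom (PadicAlgCl ℓ)).map_multiset_sum
        (((A i).poly v σ).roots.map fun β => F' (val (τ β)))
      rw [Multiset.map_map] at e2
      exact e2.symm
    refine ⟨?_, ?_, ?_⟩
    · have h1 := trace_aeval (Matrix.toLin' (rep A ⟨i, j.comp σ⟩ γ)) (wt j τ) (q ⟨i, j.comp σ⟩) hdiv
      rw [hlin, Matrix.trace_toLin'_eq, hroots] at h1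
      rw [h1]
      exact hsum (fun a => a) (fun c => c) fun c => rfl
    · have h1 := trace_aeval (Matrix.toLin' (rep A ⟨i, j.comp σ⟩ γ)) (fun a => wt j τ a ^ 2)
        (q ⟨i, j.comp σ⟩ ^ 2) (fun β hβ => by
          have e : q ⟨i, j.comp σ⟩ ^ 2 - C (wt j τ β ^ 2) =
              (q ⟨i, j.comp σ⟩ - C (wt j τ β)) * (q ⟨i, j.comp σ⟩ + C (wt j τ β)) := by
            rw [C_pow]; ring
          rw [e]
          exact (hdiv β hβ).mul_right _)
      rw [hlin2, Matrix.trace_toLin'_eq, hroots] at h1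
      rw [h1]
      exact hsum (fun a => a ^ 2) (fun c => c ^ 2) fun c => by rw [Rat.cast_pow]
    · intro c hc
      have h1 := aeval_scalar (Matrix.toLin' (rep A ⟨i, j.comp σ⟩ γ)) (c : PadicAlgCl ℓ)
        (q ⟨i, j.comp σ⟩) (fun β hβ => by
          have h2 := hdiv β hβ
          rw [hroots, Multiset.mem_map] at hβ
          obtain ⟨α, hα, rfl⟩ := hβ
          rw [wt_eq j τ (root_ne A hA hv hγ i σ hα), hc α hα] at h2
          exact h2)
      rw [hlin] at h1
      apply (Matrix.toLin' (R := PadicAlgCl ℓ)).injective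
      rw [h1, map_smul, Matrix.toLin'_one]
      rfl

end fam

end Pool.Agent.W2helper27.OP
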