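import Pool.Agent.W2helper27.OP.Val

/-! The Lie algebra of the `ℓ`-adic monodromy group of a family of motives, and its simple factors. -/

set_option autoImplicit false

namespace Pool.Agent.W2helper27.OP

open NumberField IsDedekindDomain Polynomial
open Pool.Agent.W401.Cheb Pool.Agent.W528.Ord

/-- `a` is an ideal of the Lie algebra `g` of the Zariski closure of the image of `ρ`. -/
def IsLieIdeal {X : Type} {n : X → ℕ} {k : Type} [Field k] {G : Type}
    (ρ : ∀ x, G → Matrix (Fin (n x)) (Fin (n x)) k)
    (a : Submodule k (∀ x, Matrix (Fin (n x)) (Fin (n x)) k)) : Prop :=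
  (∀ U ∈ a, IsTangent ρ U) ∧ ∀ T, IsTangent ρ T → ∀ U ∈ a, T * U - U * T ∈ a

/-- The Lie algebra `g` of the Zariski closure of the image of `ρ` acts on the component `x`, modulo
scalars, through a simple Lie algebra or trivially: every ideal `a` of `g` acts by scalars, or every
element of `g` is the sum of an element of `a` and one which acts by a scalar; and if all commutators act
by scalars then `g` acts by scalars. -/
def SimpleOn {X : Type} {n : X → ℕ} {k : Type} [Field k] {G : Type}
    (ρ : ∀ x, G → Matrix (Fin (n x)) (Fin (n x)) k) (x : X) : Prop :=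
  (∀ a : Submodule k (∀ x, Matrix (Fin (n x)) (Fin (n x)) k), IsLieIdeal ρ a →
    (∀ U ∈ a, ScalarAt U x) ∨ ∀ T, IsTangent ρ T → ∃ U ∈ a, ScalarAt (T - U) x) ∧
  ((∀ T T' : ∀ x, Matrix (Fin (n x)) (Fin (n x)) k, IsTangent ρ T → IsTangent ρ T' →
    ScalarAt (T * T' - T' * T) x) → ∀ T, IsTangent ρ T → ScalarAt T x)

variable {K : Type} [Field K] [NumberField K] {ℓ : ℕ} [Fact ℓ.Prime] {ι : Type}

/-- The parts of the motives `A i`: the pairs of an index `i` and an embedding of the field of
multiplications of `A i` into the algebraic closure of `ℚ_ℓ`. -/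
abbrev Part (A : ι → MotSystem K ℓ) : Type := Σ i, (A i).E →+* PadicAlgCl ℓ

/-- The rank of a part. -/
def rk (A : ι → MotSystem K ℓ) (x : Part A) : ℕ := (A x.1).n

/-- The `ℓ`-adic representation on a part. -/
noncomputable def rep (A : ι → MotSystem K ℓ) (x : Part A) (g : GK K) :
    Matrix (Fin (rk A x)) (Fin (rk A x)) (PadicAlgCl ℓ) :=
  ((A x.1).ρ x.2 g : Matrix (Fin (A x.1).n) (Fin (A x.1).n) (PadicAlgCl ℓ))

/-- Hodge-Tate: for every embedding `j` of the algebraic closure of `K` into the algebraic closure of
`ℚ_ℓ` there is an element `T` of the Lie algebra of the monodromy group whose action on the part of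
`A i` with index `j ∘ σ` is diagonalizable with the Hodge slopes of the `σ`-part as eigenvalues. -/
def HodgeTate (A : ι → MotSystem K ℓ) : Prop :=
  ∀ j : AlgebraicClosure K →+* PadicAlgCl ℓ,
    ∃ T : ∀ x : Part A, Matrix (Fin (rk A x)) (Fin (rk A x)) (PadicAlgCl ℓ), IsTangent (rep A) T ∧
      ∀ (i : ι) (σ : (A i).E →+* AlgebraicClosure K), HasEigenvalues (T ⟨i, j.comp σ⟩) ((A i).h σ)

/-- The semisimple part of the Lie algebra `g` of the monodromy group is determined by the motives `A i`
with `i` in `V`: on the parts of these `A i` it acts through simple Lie algebras modulo scalars, and an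
element of `g` which acts by scalars on all of them acts by scalars on the parts of all `A i`. -/
structure DeterminedBy (A : ι → MotSystem K ℓ) (V : Set ι) : Prop where
  simple : ∀ x : Part A, x.1 ∈ V → SimpleOn (rep A) x
  faithful : ∀ T : ∀ x : Part A, Matrix (Fin (rk A x)) (Fin (rk A x)) (PadicAlgCl ℓ),
    IsTangent (rep A) T → (∀ x : Part A, x.1 ∈ V → ScalarAt T x) → ∀ x, ScalarAt T x

end Pool.Agent.W2helper27.OP
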