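import Pool.Agent.W2helper27.OP.Place

/-! Density of the ordinary places. -/

set_option autoImplicit false
set_option linter.all false

namespace Pool.Agent.W2helper27.OP

open NumberField IsDedekindDomain Polynomial Filter Topology
open Pool.Agent.W401.Cheb Pool.Agent.W528.Ord
open Pool.Agent.W528.Ord.MultSystem (IsDeg1 IsOver norm_mem)
open Pool.Agent.W528.Ord.MotSystem

variable {K : Type} [Field K] [NumberField K] {ℓ : ℕ} [Fact ℓ.Prime] {ι : Type} [Fintype ι]
  (A : ι → MotSystem K ℓ) (m : ι → ℕ) (χ : GK K →* (PadicAlgCl ℓ)ˣ)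
  (S : Finset ℕ) (hA : ∀ i, (A i).IsMotive χ S) (V : Set ι)

/-- The place-wise principle: places which are ordinary for the `A i` with `i` in `V` are ordinary for
all `A i`. -/
def Principle (A : ι → MotSystem K ℓ) (S : Finset ℕ) (V : Set ι) : Prop :=
  ∀ (v : HeightOneSpectrum (𝓞 K)), IsDeg1 S v → ∀ (Q : Ideal (𝓞 (AlgebraicClosure K))), IsOver Q v →
    ∀ (p : ℕ) [Fact p.Prime] (τ : AlgebraicClosure K →+* PadicAlgCl p), Ideal.absNorm v.asIdeal = p →
    (∀ x : 𝓞 (AlgebraicClosure K), x ∈ Q ↔ ‖τ (x : AlgebraicClosure K)‖ < 1) →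
    (∀ i ∈ V, ∀ σ, OrdPart A v τ i σ) → ∀ i σ, OrdPart A v τ i σ

variable {A} {V}

include hA in
theorem newton_of' (hP : Principle A S V) {v : HeightOneSpectrum (𝓞 K)} (hv : IsDeg1 S v)
    {Q : Ideal (𝓞 (AlgebraicClosure K))} (hQ : IsOver Q v) (G : Polynomial ℤ)
    (hG : G.map (Int.castRingHom (AlgebraicClosure K)) = prodPoly A m v)
    (hno : ∀ i ∈ V, ∀ (σ : (A i).E →+* AlgebraicClosure K) (k : ℕ), (A i).Vertex σ k →
      ¬ LocDvd Q (Ideal.absNorm v.asIdeal) ((A i).hp σ k + 1) ((A i).cof v ((A i).n - k) σ)) :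
    NewtonSlopes (Ideal.absNorm v.asIdeal) G (slopes A m) := by
  classical
  obtain ⟨p, hpe⟩ : ∃ p, Ideal.absNorm v.asIdeal = p := ⟨_, rfl⟩
  have hpp : p.Prime := hpe ▸ hv.1
  haveI : Fact p.Prime := ⟨hpp⟩
  have hpQ := norm_mem hv.1 hQ.2
  rw [hpe] at hpQ
  obtain ⟨τ, hτ⟩ := exists_tau (p := p) Q hQ.1 hpQ
  have hG2 : G.map (Int.castRingHom (PadicAlgCl p)) =
      ∏ i, ∏ σ : (A i).E →+* AlgebraicClosure K, ((A i).poly v (τ.comp σ)) ^ m i := by
    have e1 : τ.comp (Int.castRingHom (AlgebraicClosure K)) = Int.castRingHom (PadicAlgCl p) :=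
      RingHom.ext_int _ _
    rw [← e1, ← Polynomial.map_map, hG]
    unfold prodPoly
    rw [Polynomial.map_prod]
    apply Finset.prod_congr rfl
    intro i _
    rw [Polynomial.map_prod]
    apply Finset.prod_congr rfl
    intro σ _
    unfold poly
    rw [Polynomial.map_pow, Polynomial.map_map]
    rfl
  have hne : ∀ i (σ : (A i).E →+* AlgebraicClosure K), (A i).poly v (τ.comp σ) ≠ 0 := by
    intro i σ
    obtain ⟨hm, hn⟩ := (hA i).isMonic v hv
    exact (hm.map _).ne_zero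
  have hall := hP v hv Q hQ p τ hpe hτ (fun i hi σ => roots_part (hA i) hv hQ hpe hτ σ
    (fun k hk => hno i hi σ k hk))
  have main : NewtonSlopes p G (slopes A m) := by
    refine ⟨inferInstance, ?_⟩
    rw [hG2, roots_prod_norm _ _ (fun i _ => Finset.prod_ne_zero_iff.mpr fun σ _ => pow_ne_zero _ (hne i σ))]
    unfold slopes
    rw [map_sum_multiset]
    apply Finset.sum_congr rfl
    intro i _
    rw [roots_prod_norm _ _ (fun σ _ => pow_ne_zero _ (hne i σ)), Multiset.map_nsmul, map_sum_multiset,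
      Finset.smul_sum]
    apply Finset.sum_congr rfl
    intro σ _
    rw [roots_pow, Multiset.map_nsmul, hall i σ]
  rw [hpe]
  exact main

include hA in
theorem main_K' (hP : Principle A S V) (G : HeightOneSpectrum (𝓞 K) → Polynomial ℤ)
    (hG : ∀ v : HeightOneSpectrum (𝓞 K), IsDeg1 S v →
      (G v).map (Int.castRingHom (AlgebraicClosure K)) = prodPoly A m v) :
    Tendsto (dens fun v : HeightOneSpectrum (𝓞 K) => IsDeg1 S v ∧
      (∃ γ : GK K, IsFrob v γ ∧ ∀ i : V, (A i).Admissible γ) ∧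
      ¬ NewtonSlopes (Ideal.absNorm v.asIdeal) (G v) (slopes A m)) atTop (𝓝 0) := by
  classical
  have hun := dens_biUnion (Finset.univ.sigma (fun i : ι => Finset.range (A i).n))
    (fun x : (Σ _ : ι, ℕ) => (A x.1).Bad S x.2) (fun x _ => bad_dens (hA x.1) x.2)
  refine squeeze_zero (fun N => dens_nonneg _ _) (fun N => dens_mono ?_ N) hun
  rintro v ⟨hv, ⟨γ, ⟨Q, hQ, hQv, hγ⟩, hadm⟩, hnew⟩
  by_contra hcon
  apply hnew
  apply newton_of' m χ S hA hP hv ⟨hQ, hQv⟩ (G v) (hG v hv)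
  intro i hi σ k hk hd
  apply hcon
  refine ⟨⟨i, k⟩, ?_, hv, Q, γ, σ, ⟨hQ, hQv⟩, hγ, hadm ⟨i, hi⟩, hk, hd⟩
  rw [Finset.mem_sigma]
  exact ⟨Finset.mem_univ _, Finset.mem_range.mpr hk.2.1⟩

include hA in
theorem lower_K' (hP : Principle A S V) (G : HeightOneSpectrum (𝓞 K) → Polynomial ℤ)
    (hG : ∀ v : HeightOneSpectrum (𝓞 K), IsDeg1 S v →
      (G v).map (Int.castRingHom (AlgebraicClosure K)) = prodPoly A m v) (ε : ℝ) (hε : 0 < ε) :
    ∀ᶠ N : ℕ in atTop, admProportion (fun i : V => A i) - ε ≤ dens (fun v : HeightOneSpectrum (𝓞 K) =>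
      IsDeg1 S v ∧ NewtonSlopes (Ideal.absNorm v.asIdeal) (G v) (slopes A m)) N := by
  classical
  haveI : Fintype V := Fintype.ofFinite V
  have hlim := adm_dens (fun i : V => A i) χ S (fun i => hA i)
  have h1 := main_K' m χ S hA hP G hG
  have h2 := dens_not_prime (K := K)
  have h3 := dens_finite _ (finite_norm_mem (K := K) S)
  have e0 := hlim.eventually (lt_mem_nhds (show admProportion (fun i : V => A i) - ε / 4 <
    admProportion (fun i : V => A i) by linarith))
  have e1 := h1.eventually (gt_mem_nhds (show (0:ℝ) < ε / 4 by positivity))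
  have e2 := h2.eventually (gt_mem_nhds (show (0:ℝ) < ε / 4 by positivity))
  have e3 := h3.eventually (gt_mem_nhds (show (0:ℝ) < ε / 4 by positivity))
  filter_upwards [e0, e1, e2, e3] with N h0 h1 h2 h3
  have hle : dens (fun v : HeightOneSpectrum (𝓞 K) => ∃ γ : GK K, IsFrob v γ ∧
      ∀ i : V, (A i).Admissible γ) N ≤
      dens (fun v : HeightOneSpectrum (𝓞 K) =>
      IsDeg1 S v ∧ NewtonSlopes (Ideal.absNorm v.asIdeal) (G v) (slopes A m)) N +
      (dens (fun v : HeightOneSpectrum (𝓞 K) => IsDeg1 S v ∧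
      (∃ γ : GK K, IsFrob v γ ∧ ∀ i : V, (A i).Admissible γ) ∧
      ¬ NewtonSlopes (Ideal.absNorm v.asIdeal) (G v) (slopes A m)) N +
      (dens (fun v : HeightOneSpectrum (𝓞 K) => ¬ (Ideal.absNorm v.asIdeal).Prime) N +
      dens (fun v : HeightOneSpectrum (𝓞 K) => Ideal.absNorm v.asIdeal ∈ S) N)) := by
    refine le_trans (dens_mono (Q := fun v => _ ∨ (_ ∨ (_ ∨ _))) ?_ N)
      (le_trans (dens_or _ _ N) (add_le_add_right (le_trans (dens_or _ _ N)
        (add_le_add_right (dens_or _ _ N) _)) _))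
    intro v hv
    by_cases hp : (Ideal.absNorm v.asIdeal).Prime
    · by_cases hS : Ideal.absNorm v.asIdeal ∈ S
      · exact Or.inr (Or.inr (Or.inr hS))
      · by_cases hd : NewtonSlopes (Ideal.absNorm v.asIdeal) (G v) (slopes A m)
        · exact Or.inl ⟨⟨hp, hS⟩, hd⟩
        · exact Or.inr (Or.inl ⟨⟨hp, hS⟩, hv, hd⟩)
    · exact Or.inr (Or.inr (Or.inl hp))
  linarith

theorem lower_down' (K₀ : Type) [Field K₀] [NumberField K₀] [Algebra K₀ K]
    (hA : ∀ i, (A i).IsMotive χ S) (hP : Principle A S V)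
    (F : HeightOneSpectrum (𝓞 K₀) → Polynomial ℤ)
    (hF : ∀ (v₀ : HeightOneSpectrum (𝓞 K₀)) (v : HeightOneSpectrum (𝓞 K)),
      v.asIdeal.comap (algebraMap (𝓞 K₀) (𝓞 K)) = v₀.asIdeal → MultSystem.IsDeg1 S v →
      (F v₀).map (Int.castRingHom (AlgebraicClosure K)) = MotSystem.prodPoly A m v)
    (hγ : ∃ γ : GK K, ∀ i ∈ V, (A i).Admissible γ) :
    0 < lowerDensity (OrdinaryPlace S F (slopes A m)) := by
  classical
  haveI : Fintype V := Fintype.ofFinite V
  obtain ⟨G, hG⟩ := exists_ext (K := K) F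
  have hpos := admProportion_pos (fun i : V => A i) (by
    obtain ⟨γ, h⟩ := hγ
    exact ⟨γ, fun i => h i i.2⟩)
  have hev := lower_K' m χ S hA hP G (fun v hv => by
    obtain ⟨v₀, h0, -⟩ := exists_under (K₀ := K₀) v hv.1
    rw [hG v hv.1 v₀ h0]
    exact hF v₀ v h0 hv) (admProportion (fun i : V => A i) / 2) (by positivity)
  have hd : (0 : ℝ) < (Module.finrank ℚ K : ℝ) := by exact_mod_cast Module.finrank_pos
  apply lowerDensity_pos _ (admProportion (fun i : V => A i) / 2 / (Module.finrank ℚ K : ℝ)) (by positivity)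
  filter_upwards [hev] with N hN
  have h1 := dens_under (K₀ := K₀) (fun v : HeightOneSpectrum (𝓞 K) =>
      MultSystem.IsDeg1 S v ∧ NewtonSlopes (Ideal.absNorm v.asIdeal) (G v) (slopes A m))
      (OrdinaryPlace S F (slopes A m)) (fun v hv => hv.1.1) (fun v v₀ hv h0 => by
        have e := under_norm v hv.1.1 v₀ h0
        refine ⟨?_, ?_⟩
        · unfold MultSystem.IsDeg1
          rw [e]
          exact hv.1
        · rw [e, ← hG v hv.1.1 v₀ h0]
          exact hv.2) N
  rw [div_le_iff₀ hd, mul_comm]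
  have h2 : admProportion (fun i : V => A i) / 2 ≤
      admProportion (fun i : V => A i) - admProportion (fun i : V => A i) / 2 := by linarith
  exact (h2.trans hN).trans h1

end Pool.Agent.W2helper27.OP
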