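import Mathlib

/-! Invariant forms on Lie algebras of matrices with simple quotients. -/

set_option autoImplicit false

namespace Pool.Agent.W2helper27.OP

open Module

section forms

variable {k B : Type} [Field k] [Ring B] [Algebra k B]

/-- `a` is an ideal of the Lie algebra `g`. -/
def IsIdl (g a : Submodule k B) : Prop := a ≤ g ∧ ∀ t ∈ g, ∀ u ∈ a, t * u - u * t ∈ a

/-- `I` is an ideal of `g` and `g / I` is simple or zero. -/
def Quo (g I : Submodule k B) : Prop :=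
  IsIdl g I ∧ (∀ a, IsIdl g a → a ≤ I ∨ g ≤ a ⊔ I) ∧
    ((∀ s ∈ g, ∀ t ∈ g, s * t - t * s ∈ I) → g ≤ I)

/-- A symmetric invariant form. -/
def InvForm (b : B →ₗ[k] B →ₗ[k] k) : Prop :=
  (∀ x y, b x y = b y x) ∧ ∀ x y z, b (x * y - y * x) z = b x (y * z - z * y)

lemma IsIdl.right {g a : Submodule k B} (h : IsIdl g a) {t u : B} (ht : t ∈ a) (hu : u ∈ g) :
    t * u - u * t ∈ a := by
  have h1 := h.2 u hu t ht
  have h2 := a.neg_mem h1
  rwa [neg_sub] at h2

lemma Quo.restrict {g I g1 : Submodule k B} (hI : Quo g I) (h1 : IsIdl g g1) : Quo g1 (I ⊓ g1) := by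
  obtain ⟨hid, hS, hP⟩ := hI
  refine ⟨⟨inf_le_right, fun t ht u hu => ⟨hid.2 t (h1.1 ht) u hu.1, h1.2 t (h1.1 ht) u hu.2⟩⟩, ?_, ?_⟩
  · intro a ha
    by_cases hle : g1 ≤ I
    · exact Or.inl fun x hx => ⟨hle (ha.1 hx), ha.1 hx⟩
    have hg : g ≤ g1 ⊔ I := (hS g1 h1).resolve_left hle
    have ha' : IsIdl g (a ⊔ (I ⊓ g1)) := by
      refine ⟨sup_le (ha.1.trans h1.1) (inf_le_left.trans hid.1), ?_⟩
      intro t ht u hu
      obtain ⟨t1, ht1, i, hi, rfl⟩ := Submodule.mem_sup.1 (hg ht)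
      obtain ⟨u1, hu1, u2, hu2, rfl⟩ := Submodule.mem_sup.1 hu
      have e : (t1 + i) * (u1 + u2) - (u1 + u2) * (t1 + i) =
          (t1 * u1 - u1 * t1) + ((i * u1 - u1 * i) + ((t1 + i) * u2 - u2 * (t1 + i))) := by
        noncomm_ring
      rw [e]
      refine Submodule.add_mem_sup (ha.2 t1 ht1 u1 hu1) (Submodule.add_mem _ ?_ ?_)
      · exact ⟨hid.right hi (h1.1 (ha.1 hu1)), h1.2 i (hid.1 hi) u1 (ha.1 hu1)⟩
      · exact ⟨hid.2 _ ht u2 hu2.1, h1.2 _ ht u2 hu2.2⟩
    rcases hS _ ha' with h | h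
    · exact Or.inl fun x hx => ⟨h (Submodule.mem_sup_left hx), ha.1 hx⟩
    · right
      intro t ht
      obtain ⟨y, hy, i, hi, rfl⟩ := Submodule.mem_sup.1 (h (h1.1 ht))
      obtain ⟨a1, ha1, w, hw, rfl⟩ := Submodule.mem_sup.1 hy
      rw [add_assoc]
      refine Submodule.add_mem_sup ha1 ⟨I.add_mem hw.1 hi, ?_⟩
      have h2 := g1.sub_mem ht (ha.1 ha1)
      have e : a1 + w + i - a1 = w + i := by abel
      rwa [e] at h2
  · intro hab
    by_cases hle : g1 ≤ I
    · exact fun x hx => ⟨hle hx, hx⟩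
    have hg : g ≤ g1 ⊔ I := (hS g1 h1).resolve_left hle
    exfalso
    apply hle
    refine h1.1.trans (hP ?_)
    intro s hs t ht
    obtain ⟨s1, hs1, i, hi, rfl⟩ := Submodule.mem_sup.1 (hg hs)
    obtain ⟨t1, ht1, i', hi', rfl⟩ := Submodule.mem_sup.1 (hg ht)
    have e : (s1 + i) * (t1 + i') - (t1 + i') * (s1 + i) =
        (s1 * t1 - t1 * s1) + ((s1 * i' - i' * s1) + (i * (t1 + i') - (t1 + i') * i)) := by
      noncomm_ring
    rw [e]
    exact I.add_mem (hab s1 hs1 t1 ht1).1 (I.add_mem (hid.2 s1 (h1.1 hs1) i' hi') (hid.right hi ht))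

variable [IsAlgClosed k] [FiniteDimensional k B]

lemma prop_form {g I L : Submodule k B} (hI : Quo g I) (hL : IsIdl g L) (hLI : ¬ L ≤ I)
    {b β : B →ₗ[k] B →ₗ[k] k} (hb : InvForm b) (hβ : InvForm β)
    (hβI : ∀ i ∈ I, ∀ t ∈ g, β i t = 0) (hbZ : ∀ z ∈ L, z ∈ I → ∀ t ∈ g, b z t = 0)
    (hβ0 : ¬ ∀ s ∈ g, ∀ t ∈ g, β s t = 0) : ∃ c : k, ∀ z ∈ L, ∀ t ∈ g, b z t = c * β z t := by
  classical
  have hR := hI.restrict hL
  obtain ⟨hid, hS, hP⟩ := hR
  have hg : g ≤ L ⊔ I := (hI.2.1 L hL).resolve_left hLI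
  have hLZ : ¬ L ≤ I ⊓ L := fun h => hLI fun x hx => (h hx).1
  -- Step 1
  have s1 : ∀ z ∈ L, ∀ i ∈ I, b z i = 0 := by
    let L0 : Submodule k B :=
      { carrier := {z | z ∈ L ∧ ∀ i ∈ I, b z i = 0}
        add_mem' := fun {a c} ha hc => ⟨L.add_mem ha.1 hc.1, fun i hi => by
          rw [map_add, LinearMap.add_apply, ha.2 i hi, hc.2 i hi, add_zero]⟩
        zero_mem' := ⟨L.zero_mem, fun i _ => by rw [map_zero, LinearMap.zero_apply]⟩
        smul_mem' := fun r a ha => ⟨L.smul_mem r ha.1, fun i hi => by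
          rw [map_smul, LinearMap.smul_apply, ha.2 i hi, smul_zero]⟩ }
    have hbr : ∀ s ∈ L, ∀ t ∈ L, s * t - t * s ∈ L0 := by
      intro s hs t ht
      refine ⟨hL.2 s (hL.1 hs) t ht, fun i hi => ?_⟩
      rw [hb.2, hb.1]
      refine hbZ _ ?_ (hI.1.2 t (hL.1 ht) i hi) s (hL.1 hs)
      exact hL.right ht (hI.1.1 hi)
    have hL0 : IsIdl L L0 := ⟨fun z hz => hz.1, fun t ht u hu => hbr t ht u hu.1⟩
    have hZ0 : I ⊓ L ≤ L0 := fun z hz => ⟨hz.2, fun i hi => hbZ z hz.2 hz.1 i (hI.1.1 hi)⟩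
    rcases hS L0 hL0 with h | h
    · exact absurd (hP fun s hs t ht => h (hbr s hs t ht)) hLZ
    · intro z hz i hi
      have := h hz
      rw [sup_eq_left.2 hZ0] at this
      exact this.2 i hi
  -- general ideals
  have hrad : ∀ f : B →ₗ[k] B →ₗ[k] k, InvForm f → (∀ z ∈ L, z ∈ I → ∀ t ∈ L, f z t = 0) →
      (∃ z ∈ L, z ∉ I ∧ ∀ t ∈ L, f z t = 0) → ∀ z ∈ L, ∀ t ∈ L, f z t = 0 := by
    intro f hf hfZ hex
    let R : Submodule k B :=
      { carrier := {z | z ∈ L ∧ ∀ t ∈ L, f z t = 0}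
        add_mem' := fun {a c} ha hc => ⟨L.add_mem ha.1 hc.1, fun i hi => by
          rw [map_add, LinearMap.add_apply, ha.2 i hi, hc.2 i hi, add_zero]⟩
        zero_mem' := ⟨L.zero_mem, fun i _ => by rw [map_zero, LinearMap.zero_apply]⟩
        smul_mem' := fun r a ha => ⟨L.smul_mem r ha.1, fun i hi => by
          rw [map_smul, LinearMap.smul_apply, ha.2 i hi, smul_zero]⟩ }
    have hRid : IsIdl L R := by
      refine ⟨fun z hz => hz.1, fun t ht u hu => ⟨hL.2 t (hL.1 ht) u hu.1, fun s hs => ?_⟩⟩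
      have e : t * u - u * t = -(u * t - t * u) := by abel
      rw [e, map_neg, LinearMap.neg_apply, hf.2, hu.2 _ (hL.2 t (hL.1 ht) s hs), neg_zero]
    have hZR : I ⊓ L ≤ R := fun z hz => ⟨hz.2, fun t ht => hfZ z hz.2 hz.1 t ht⟩
    rcases hS R hRid with h | h
    · obtain ⟨z, hz, hzI, hzt⟩ := hex
      exact absurd (h (show z ∈ R from ⟨hz, hzt⟩)).1 hzI
    · intro z hz t ht
      have := h hz
      rw [sup_eq_left.2 hZR] at this
      exact this.2 t ht
  -- Step 2: the form `β` is nondegenerate on `L` modulo `I`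
  have s2 : ∀ z ∈ L, (∀ t ∈ L, β z t = 0) → z ∈ I := by
    intro z hz hzt
    by_contra hzI
    have h := hrad β hβ (fun z _ hzI t ht => hβI z hzI t (hL.1 ht)) ⟨z, hz, hzI, hzt⟩
    apply hβ0
    intro s hs t ht
    obtain ⟨s1, hs1, i, hi, rfl⟩ := Submodule.mem_sup.1 (hg hs)
    obtain ⟨t1, ht1, i', hi', rfl⟩ := Submodule.mem_sup.1 (hg ht)
    simp only [map_add, LinearMap.add_apply]
    rw [h s1 hs1 t1 ht1, hβI i hi t1 (hL.1 ht1), hβ.1 s1 i', hβI i' hi' s1 (hL.1 hs1),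
      hβI i hi i' (hI.1.1 hi')]
    simp
  -- Step 3: an eigenvector on a complement
  obtain ⟨C, hC⟩ := Submodule.exists_isCompl (I ⊓ L)
  let W : Submodule k B := C ⊓ L
  have hdec : ∀ t ∈ L, ∃ z ∈ I ⊓ L, ∃ w ∈ W, t = z + w := by
    intro t ht
    have h1 : t ∈ (I ⊓ L) ⊔ C := by rw [hC.sup_eq_top]; exact Submodule.mem_top
    obtain ⟨z, hz, w, hw, rfl⟩ := Submodule.mem_sup.1 h1
    refine ⟨z, hz, w, ⟨hw, ?_⟩, rfl⟩
    have h2 := L.sub_mem ht hz.2
    have e : z + w - z = w := by abel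
    rwa [e] at h2
  have hWI : ∀ w ∈ W, w ∈ I → w = 0 := by
    intro w hw hwI
    have h1 : w ∈ (I ⊓ L) ⊓ C := ⟨⟨hwI, hw.2⟩, hw.1⟩
    rw [hC.inf_eq_bot] at h1
    exact (Submodule.mem_bot k).1 h1
  let βW : W →ₗ[k] (W →ₗ[k] k) := (β.domRestrict₁₂ W W)
  let bW : W →ₗ[k] (W →ₗ[k] k) := (b.domRestrict₁₂ W W)
  have hβW : ∀ x y : W, βW x y = β x y := fun x y => rfl
  have hbW : ∀ x y : W, bW x y = b x y := fun x y => rfl
  have hinj : Function.Injective βW := by
    rw [← LinearMap.ker_eq_bot, eq_bot_iff]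
    intro x hx
    have hx' : βW x = 0 := LinearMap.mem_ker.1 hx
    have h1 : (x : B) ∈ I := by
      apply s2 x x.2.2
      intro t ht
      obtain ⟨z, hz, w, hw, rfl⟩ := hdec t ht
      have h2 : β x w = 0 := by
        have := congrArg (fun f : W →ₗ[k] k => f ⟨w, hw⟩) hx'
        exact this
      rw [map_add, h2, add_zero, hβ.1]
      exact hβI z hz.1 x (hL.1 x.2.2)
    exact (Submodule.mem_bot k).2 (Subtype.ext (hWI x x.2 h1))
  have hbij : Function.Bijective βW := by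
    refine ⟨hinj, ?_⟩
    have hfr : finrank k W = finrank k (W →ₗ[k] k) :=
      (Subspace.dual_finrank_eq (K := k) (V := W)).symm
    exact (LinearMap.injective_iff_surjective_of_finrank_eq_finrank hfr).1 hinj
  let e : W ≃ₗ[k] (W →ₗ[k] k) := LinearEquiv.ofBijective βW hbij
  let φ : Module.End k W := e.symm.toLinearMap ∘ₗ bW
  have hφ : ∀ x y : W, β (φ x) y = b x y := by
    intro x y
    have h1 : e (φ x) = bW x := by
      change e (e.symm (bW x)) = bW x
      rw [LinearEquiv.apply_symm_apply]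
    have h2 := congrArg (fun f : W →ₗ[k] k => f y) h1
    exact h2
  have hnt : Nontrivial W := by
    by_contra hn
    rw [not_nontrivial_iff_subsingleton] at hn
    apply hLI
    intro t ht
    obtain ⟨z, hz, w, hw, rfl⟩ := hdec t ht
    have : (⟨w, hw⟩ : W) = 0 := Subsingleton.elim _ _
    have hw0 : w = 0 := congrArg Subtype.val this
    rw [hw0, add_zero]
    exact hz.1
  obtain ⟨c, hc⟩ := Module.End.exists_eigenvalue φ
  obtain ⟨w, hw⟩ := hc.exists_hasEigenvector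
  have hw1 : φ w = c • w := hw.apply_eq_smul
  have hw0 : (w : B) ∉ I := fun h => hw.2 (Subtype.ext (hWI w w.2 h))
  -- Step 4
  have s4 := hrad (b - c • β) ⟨fun x y => by
      simp only [LinearMap.sub_apply, LinearMap.smul_apply, hb.1 x y, hβ.1 x y], fun x y z => by
      simp only [LinearMap.sub_apply, LinearMap.smul_apply, hb.2 x y z, hβ.2 x y z]⟩
    (fun z hz hzI t ht => by
      simp only [LinearMap.sub_apply, LinearMap.smul_apply]
      rw [hbZ z hz hzI t (hL.1 ht), hβI z hzI t (hL.1 ht), smul_zero, sub_zero])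
    ⟨w, w.2.2, hw0, fun t ht => by
      obtain ⟨z, hz, w', hw', rfl⟩ := hdec t ht
      simp only [LinearMap.sub_apply, LinearMap.smul_apply, map_add]
      have h1 := hφ w ⟨w', hw'⟩
      rw [hw1] at h1
      have h2 : β ((c • w : W) : B) w' = c * β w w' := by
        rw [Submodule.coe_smul, map_smul, LinearMap.smul_apply, smul_eq_mul]
      have h3 : b w w' = c * β w w' := by rw [← h2]; exact h1.symm
      rw [hb.1 w z, hβ.1 w z, hbZ z hz.2 hz.1 w (hL.1 w.2.2), hβI z hz.1 w (hL.1 w.2.2), h3]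
      simp⟩
  refine ⟨c, fun z hz t ht => ?_⟩
  obtain ⟨l, hl, i, hi, rfl⟩ := Submodule.mem_sup.1 (hg ht)
  have h1 := s4 z hz l hl
  simp only [LinearMap.sub_apply, LinearMap.smul_apply, smul_eq_mul, sub_eq_zero] at h1
  rw [map_add, map_add, s1 z hz i hi, hβ.1 z i, hβI i hi z (hL.1 hz), add_zero, add_zero, h1]

/-- An invariant form which vanishes on the elements of all `I x` takes the same value on `N` and `H` if
the given forms `β x` do. -/
lemma forms_eq {X : Type} (I : X → Submodule k B) (β : X → B →ₗ[k] B →ₗ[k] k)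
    (hβ : ∀ x, InvForm (β x)) (hβI : ∀ x, ∀ i ∈ I x, ∀ t, β x i t = 0) (N H : B)
    (hNH : ∀ x, β x N N = β x H H) (X' : Finset X) :
    ∀ g : Submodule k B, (∀ x ∈ X', Quo g (I x ⊓ g)) → N ∈ g → H ∈ g →
      (∀ x ∈ X', (∀ s ∈ g, ∀ t ∈ g, β x s t = 0) → N ∈ I x ∧ H ∈ I x) →
      ∀ b : B →ₗ[k] B →ₗ[k] k, InvForm b →
        (∀ z ∈ g, (∀ x ∈ X', z ∈ I x) → ∀ t ∈ g, b z t = 0) →
        (∀ s ∈ g, ∀ t ∈ g, s * t - t * s ∈ g) → b N N = b H H := by
  classical
  induction X' using Finset.induction_on with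
  | empty =>
    intro g _ hN hH _ b _ hb0 _
    rw [hb0 N hN (by simp) N hN, hb0 H hH (by simp) H hH]
  | insert x₀ X' hx ih =>
    intro g hQ hN hH hscal b hb hb0 hg
    by_cases hA : ∀ s ∈ g, ∀ t ∈ g, β x₀ s t = 0
    · -- Case A
      obtain ⟨hN0, hH0⟩ := hscal x₀ (Finset.mem_insert_self _ _) hA
      have hg1 : IsIdl g (I x₀ ⊓ g) := (hQ x₀ (Finset.mem_insert_self _ _)).1
      apply ih (I x₀ ⊓ g)
      · intro x hxX
        have h1 := (hQ x (Finset.mem_insert_of_mem hxX)).restrict hg1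
        have e : I x ⊓ g ⊓ (I x₀ ⊓ g) = I x ⊓ (I x₀ ⊓ g) := by
          ext z
          constructor
          · rintro ⟨⟨h1, -⟩, h2⟩; exact ⟨h1, h2⟩
          · rintro ⟨h1, h2⟩; exact ⟨⟨h1, h2.2⟩, h2⟩
        rwa [e] at h1
      · exact ⟨hN0, hN⟩
      · exact ⟨hH0, hH⟩
      · intro x hxX hz
        by_cases hle : I x₀ ⊓ g ≤ I x ⊓ g
        · exact ⟨(hle ⟨hN0, hN⟩).1, (hle ⟨hH0, hH⟩).1⟩
        · have hsup := ((hQ x (Finset.mem_insert_of_mem hxX)).2.1 _ hg1).resolve_left hle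
          apply hscal x (Finset.mem_insert_of_mem hxX)
          intro s hs t ht
          obtain ⟨s1, hs1, i, hi, rfl⟩ := Submodule.mem_sup.1 (hsup hs)
          obtain ⟨t1, ht1, i', hi', rfl⟩ := Submodule.mem_sup.1 (hsup ht)
          simp only [map_add, LinearMap.add_apply]
          rw [hz s1 hs1 t1 ht1, hβI x i hi.1, (hβ x).1 s1 i', hβI x i' hi'.1, hβI x i hi.1]
          simp
      · exact hb
      · intro z hz hzX t ht
        refine hb0 z hz.2 ?_ t ht.2
        intro x hxX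
        rcases Finset.mem_insert.1 hxX with rfl | h
        · exact hz.1
        · exact hzX x h
      · intro s hs t ht
        exact hg1.2 s hs.2 t ht
    · -- Case B
      let L : Submodule k B :=
        { carrier := {z | z ∈ g ∧ ∀ x ∈ X', z ∈ I x}
          add_mem' := fun {a c} ha hc => ⟨g.add_mem ha.1 hc.1, fun x hx => (I x).add_mem (ha.2 x hx) (hc.2 x hx)⟩
          zero_mem' := ⟨g.zero_mem, fun x _ => (I x).zero_mem⟩
          smul_mem' := fun r a ha => ⟨g.smul_mem r ha.1, fun x hx => (I x).smul_mem r (ha.2 x hx)⟩ }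
      have hL : IsIdl g L := by
        refine ⟨fun z hz => hz.1, fun t ht u hu => ⟨hg t ht u hu.1, fun x hxX => ?_⟩⟩
        exact ((hQ x (Finset.mem_insert_of_mem hxX)).1.2 t ht u ⟨hu.2 x hxX, hu.1⟩).1
      by_cases hLI : L ≤ I x₀ ⊓ g
      · apply ih g (fun x hxX => hQ x (Finset.mem_insert_of_mem hxX)) hN hH
          (fun x hxX => hscal x (Finset.mem_insert_of_mem hxX)) b hb _ hg
        intro z hz hzX t ht
        refine hb0 z hz ?_ t ht
        intro x hxX
        rcases Finset.mem_insert.1 hxX with rfl | h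
        · exact (hLI (show z ∈ L from ⟨hz, hzX⟩)).1
        · exact hzX x h
      · obtain ⟨c, hc⟩ := prop_form (hQ x₀ (Finset.mem_insert_self _ _)) hL hLI hb (hβ x₀)
          (fun i hi t _ => hβI x₀ i hi.1 t) (fun z hz hzI t ht => by
            refine hb0 z hz.1 ?_ t ht
            intro x hxX
            rcases Finset.mem_insert.1 hxX with rfl | h
            · exact hzI.1
            · exact hz.2 x h) hA
        have h1 := ih g (fun x hxX => hQ x (Finset.mem_insert_of_mem hxX)) hN hH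
          (fun x hxX => hscal x (Finset.mem_insert_of_mem hxX)) (b - c • β x₀) ⟨fun x y => by
            simp only [LinearMap.sub_apply, LinearMap.smul_apply, hb.1 x y, (hβ x₀).1 x y],
            fun x y z => by
            simp only [LinearMap.sub_apply, LinearMap.smul_apply, hb.2 x y z, (hβ x₀).2 x y z]⟩
          (fun z hz hzX t ht => by
            simp only [LinearMap.sub_apply, LinearMap.smul_apply, smul_eq_mul]
            rw [hc z ⟨hz, hzX⟩ t ht, sub_self]) hg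
        simp only [LinearMap.sub_apply, LinearMap.smul_apply, smul_eq_mul, hNH x₀] at h1
        exact sub_left_injective h1

end forms

end Pool.Agent.W2helper27.OP
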