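import Pool.Agent.W2helper27.OP.Tang
import Pool.Agent.W2helper27.OP.Forms

/-! The tangent space of a matrix group is a Lie algebra; trace forms. -/

set_option autoImplicit false

namespace Pool.Agent.W2helper27.OP

open Matrix Module

section tang

variable {k : Type} [Field k] {X : Type} {n : X → ℕ}

/-- Left translation. -/
noncomputable def Lt (g : ∀ x, Matrix (Fin (n x)) (Fin (n x)) k) :
    MvPolynomial (Σ x, Fin (n x) × Fin (n x)) k →ₐ[k] MvPolynomial (Σ x, Fin (n x) × Fin (n x)) k :=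
  MvPolynomial.aeval fun c => ∑ b, MvPolynomial.C (g c.1 c.2.1 b) * MvPolynomial.X ⟨c.1, (b, c.2.2)⟩

lemma eval_Lt (h g : ∀ x, Matrix (Fin (n x)) (Fin (n x)) k)
    (f : MvPolynomial (Σ x, Fin (n x) × Fin (n x)) k) :
    MvPolynomial.eval (pt h) (Lt g f) = MvPolynomial.eval (pt (g * h)) f := by
  have e : (MvPolynomial.eval (pt h)).comp (Lt g : _ →+* _) = MvPolynomial.eval (pt (g * h)) := by
    apply MvPolynomial.ringHom_ext
    · intro r
      simp [Lt]
    · intro c
      simp only [Lt, RingHom.comp_apply, RingHom.coe_coe, MvPolynomial.aeval_X, map_sum, map_mul,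
        MvPolynomial.eval_C, MvPolynomial.eval_X, pt, Pi.mul_apply, Matrix.mul_apply]
  exact congrArg (fun F => F f) e

lemma Dv_Lt (T g : ∀ x, Matrix (Fin (n x)) (Fin (n x)) k)
    (f : MvPolynomial (Σ x, Fin (n x) × Fin (n x)) k) : Dv T (Lt g f) = Lt g (Dv T f) := by
  induction f using MvPolynomial.induction_on with
  | C a =>
    have e : Lt g (MvPolynomial.C a) = MvPolynomial.C a := by simp [Lt]
    rw [e, Dv, MvPolynomial.derivation_C, map_zero]
  | add p q hp hq => rw [map_add, map_add, map_add, map_add, hp, hq]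
  | mul_X p c hp =>
    have h1 : Dv T (Lt g (MvPolynomial.X c)) = ∑ b, ∑ d, (MvPolynomial.C (g c.1 c.2.1 b) *
        (MvPolynomial.C (T c.1 d c.2.2) * MvPolynomial.X ⟨c.1, (b, d)⟩) :
          MvPolynomial (Σ x, Fin (n x) × Fin (n x)) k) := by
      simp only [Dv, Lt, MvPolynomial.aeval_X, MvPolynomial.mkDerivation_X, map_sum,
        Derivation.leibniz, MvPolynomial.derivation_C, smul_eq_mul]
      simp only [Finset.mul_sum, mul_zero, add_zero]
    have h2 : Lt g (Dv T (MvPolynomial.X c)) = ∑ d, ∑ b, (MvPolynomial.C (T c.1 d c.2.2) *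
        (MvPolynomial.C (g c.1 c.2.1 b) * MvPolynomial.X ⟨c.1, (b, d)⟩) :
          MvPolynomial (Σ x, Fin (n x) × Fin (n x)) k) := by
      simp only [Dv, Lt, MvPolynomial.aeval_X, MvPolynomial.mkDerivation_X, map_sum, map_mul,
        MvPolynomial.algHom_C, MvPolynomial.algebraMap_eq]
      simp only [Finset.mul_sum]
    have hX : Dv T (Lt g (MvPolynomial.X c)) = Lt g (Dv T (MvPolynomial.X c)) := by
      rw [h1, h2, Finset.sum_comm]
      refine Finset.sum_congr rfl fun d _ => Finset.sum_congr rfl fun b _ => ?_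
      ring
    rw [map_mul, Derivation.leibniz, Derivation.leibniz, hp, hX, map_add, smul_eq_mul, smul_eq_mul,
      smul_eq_mul, smul_eq_mul, map_mul, map_mul]

lemma Dv_comm (T T' : ∀ x, Matrix (Fin (n x)) (Fin (n x)) k)
    (f : MvPolynomial (Σ x, Fin (n x) × Fin (n x)) k) :
    Dv (T * T' - T' * T) f = Dv T (Dv T' f) - Dv T' (Dv T f) := by
  have e : Dv (T * T' - T' * T) = ⁅Dv T, Dv T'⁆ := by
    apply MvPolynomial.derivation_ext
    intro c
    rw [Derivation.commutator_apply]
    simp only [Dv, MvPolynomial.mkDerivation_X, map_sum, Derivation.leibniz, smul_eq_mul,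
      MvPolynomial.derivation_C, mul_zero, add_zero, Pi.sub_apply, Pi.mul_apply, Matrix.sub_apply,
      Matrix.mul_apply, map_sub, map_mul, sub_mul, Finset.sum_sub_distrib, Finset.sum_mul,
      Finset.mul_sum]
    congr 1
    · rw [Finset.sum_comm]
      refine Finset.sum_congr rfl fun d _ => Finset.sum_congr rfl fun b _ => ?_
      ring
    · rw [Finset.sum_comm]
      refine Finset.sum_congr rfl fun d _ => Finset.sum_congr rfl fun b _ => ?_
      ring
  rw [e, Derivation.commutator_apply]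

lemma Dv_add (T T' : ∀ x, Matrix (Fin (n x)) (Fin (n x)) k) : Dv (T + T') = Dv T + Dv T' := by
  apply MvPolynomial.derivation_ext
  intro c
  rw [Derivation.add_apply]
  simp only [Dv, MvPolynomial.mkDerivation_X, Pi.add_apply, Matrix.add_apply, map_add, add_mul,
    Finset.sum_add_distrib]

lemma Dv_smul (r : k) (T : ∀ x, Matrix (Fin (n x)) (Fin (n x)) k) : Dv (r • T) = r • Dv T := by
  apply MvPolynomial.derivation_ext
  intro c
  rw [Derivation.smul_apply]
  simp only [Dv, MvPolynomial.mkDerivation_X, Pi.smul_apply, Matrix.smul_apply, smul_eq_mul, map_mul,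
    Finset.smul_sum]
  refine Finset.sum_congr rfl fun b _ => ?_
  rw [MvPolynomial.smul_eq_C_mul, mul_assoc]

variable {G : Type} (ρ : ∀ x, G → Matrix (Fin (n x)) (Fin (n x)) k)

lemma isTangent_iff (T : ∀ x, Matrix (Fin (n x)) (Fin (n x)) k) :
    IsTangent ρ T ↔ ∀ f : MvPolynomial (Σ x, Fin (n x) × Fin (n x)) k,
      (∀ g : G, MvPolynomial.eval (pt fun x => ρ x g) f = 0) →
      MvPolynomial.eval (pt (1 : ∀ x, Matrix (Fin (n x)) (Fin (n x)) k)) (Dv T f) = 0 := by
  constructor
  · intro h f hf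
    rw [← (coeff_Dv T f).2]
    exact h f hf
  · intro h f hf
    rw [(coeff_Dv T f).2]
    exact h f hf

/-- The tangent space at the identity. -/
def tang : Submodule k (∀ x, Matrix (Fin (n x)) (Fin (n x)) k) where
  carrier := {T | IsTangent ρ T}
  add_mem' := by
    intro T T' hT hT'
    change IsTangent ρ T at hT
    change IsTangent ρ T' at hT'
    change IsTangent ρ (T + T')
    rw [isTangent_iff] at hT hT' ⊢
    intro f hf
    rw [Dv_add, Derivation.add_apply, map_add, hT f hf, hT' f hf, add_zero]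
  zero_mem' := by
    change IsTangent ρ 0
    rw [isTangent_iff]
    intro f _
    have e : Dv (0 : ∀ x, Matrix (Fin (n x)) (Fin (n x)) k) = 0 := by
      have := Dv_smul (0 : k) (0 : ∀ x, Matrix (Fin (n x)) (Fin (n x)) k)
      rwa [zero_smul, zero_smul] at this
    rw [e, Derivation.zero_apply, map_zero]
  smul_mem' := by
    intro r T hT
    change IsTangent ρ T at hT
    change IsTangent ρ (r • T)
    rw [isTangent_iff] at hT ⊢
    intro f hf
    rw [Dv_smul, Derivation.smul_apply, MvPolynomial.smul_eval, hT f hf, mul_zero]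

lemma mem_tang {T : ∀ x, Matrix (Fin (n x)) (Fin (n x)) k} : T ∈ tang ρ ↔ IsTangent ρ T := Iff.rfl

variable [Group G] (hone : ∀ x, ρ x 1 = 1) (hmul : ∀ x g h, ρ x (g * h) = ρ x g * ρ x h)

include hmul in
lemma Dv_mem {T : ∀ x, Matrix (Fin (n x)) (Fin (n x)) k} (hT : IsTangent ρ T)
    {f : MvPolynomial (Σ x, Fin (n x) × Fin (n x)) k}
    (hf : ∀ g : G, MvPolynomial.eval (pt fun x => ρ x g) f = 0) (g : G) :
    MvPolynomial.eval (pt fun x => ρ x g) (Dv T f) = 0 := by
  rw [isTangent_iff] at hT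
  have h1 := hT (Lt (fun x => ρ x g) f) (fun h => by
    rw [eval_Lt]
    have e : (fun x => ρ x g) * (fun x => ρ x h) = fun x => ρ x (g * h) := by
      funext x
      rw [Pi.mul_apply, hmul]
    rw [e]
    exact hf (g * h))
  rw [Dv_Lt, eval_Lt, mul_one] at h1
  exact h1

include hone hmul in
/-- The tangent space of a group is closed under commutators. -/
lemma tang_bracket {T T' : ∀ x, Matrix (Fin (n x)) (Fin (n x)) k} (hT : T ∈ tang ρ) (hT' : T' ∈ tang ρ) :
    T * T' - T' * T ∈ tang ρ := by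
  rw [mem_tang, isTangent_iff]
  intro f hf
  have e : (1 : ∀ x, Matrix (Fin (n x)) (Fin (n x)) k) = fun x => ρ x 1 := by
    funext x
    rw [hone]
    rfl
  rw [Dv_comm, map_sub, e, Dv_mem ρ hmul hT (Dv_mem ρ hmul hT' hf),
    Dv_mem ρ hmul hT' (Dv_mem ρ hmul hT hf), sub_zero]

end tang

section forms

variable {k : Type} [Field k] {X : Type} {n : X → ℕ}

/-- The family `T` acts by a scalar on the component `x`. -/
def ScalarAt (T : ∀ x, Matrix (Fin (n x)) (Fin (n x)) k) (x : X) : Prop := ∃ c : k, T x = c • 1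

/-- The families which act by scalars on `x`. -/
def scal (x : X) : Submodule k (∀ x, Matrix (Fin (n x)) (Fin (n x)) k) where
  carrier := {T | ScalarAt T x}
  add_mem' := by
    rintro T T' ⟨c, hc⟩ ⟨c', hc'⟩
    exact ⟨c + c', by rw [Pi.add_apply, hc, hc', add_smul]⟩
  zero_mem' := ⟨0, by rw [Pi.zero_apply, zero_smul]⟩
  smul_mem' := by
    rintro r T ⟨c, hc⟩
    exact ⟨r * c, by rw [Pi.smul_apply, hc, smul_smul]⟩

lemma mem_scal {T : ∀ x, Matrix (Fin (n x)) (Fin (n x)) k} {x : X} : T ∈ scal x ↔ ScalarAt T x := Iff.rfl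

/-- The form `n tr (T T') - tr T tr T'` on the component `x`. -/
noncomputable def qf (x : X) : (∀ x, Matrix (Fin (n x)) (Fin (n x)) k) →ₗ[k]
    (∀ x, Matrix (Fin (n x)) (Fin (n x)) k) →ₗ[k] k :=
  LinearMap.mk₂ k (fun T T' => (n x : k) * Matrix.trace (T x * T' x) -
      Matrix.trace (T x) * Matrix.trace (T' x))
    (fun a b c => by
      simp only [Pi.add_apply, add_mul, Matrix.trace_add]; ring)
    (fun c a b => by
      simp only [Pi.smul_apply, smul_mul_assoc, Matrix.trace_smul, smul_eq_mul]; ring)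
    (fun a b c => by
      simp only [Pi.add_apply, mul_add, Matrix.trace_add]; ring)
    (fun c a b => by
      simp only [Pi.smul_apply, mul_smul_comm, Matrix.trace_smul, smul_eq_mul]; ring)

lemma qf_apply (x : X) (T T' : ∀ x, Matrix (Fin (n x)) (Fin (n x)) k) :
    qf x T T' = (n x : k) * Matrix.trace (T x * T' x) - Matrix.trace (T x) * Matrix.trace (T' x) := rfl

lemma qf_inv (x : X) : InvForm (qf (k := k) (n := n) x) := by
  constructor
  · intro T T'
    rw [qf_apply, qf_apply, Matrix.trace_mul_comm]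
    ring
  · intro a b c
    have h1 : Matrix.trace ((a * b - b * a) x) = 0 := by
      rw [Pi.sub_apply, Pi.mul_apply, Pi.mul_apply, Matrix.trace_sub, Matrix.trace_mul_comm, sub_self]
    have h2 : Matrix.trace ((b * c - c * b) x) = 0 := by
      rw [Pi.sub_apply, Pi.mul_apply, Pi.mul_apply, Matrix.trace_sub, Matrix.trace_mul_comm, sub_self]
    rw [qf_apply, qf_apply, h1, h2, zero_mul, mul_zero, sub_zero, sub_zero]
    congr 1
    rw [Pi.sub_apply, Pi.mul_apply, Pi.mul_apply, Pi.sub_apply, Pi.mul_apply, Pi.mul_apply, sub_mul,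
      mul_sub, Matrix.trace_sub, Matrix.trace_sub]
    congr 1
    · rw [mul_assoc]
    · rw [mul_assoc, Matrix.trace_mul_comm (b x), mul_assoc]

lemma qf_scal (x : X) {T : ∀ x, Matrix (Fin (n x)) (Fin (n x)) k} (hT : ScalarAt T x)
    (T' : ∀ x, Matrix (Fin (n x)) (Fin (n x)) k) : qf x T T' = 0 := by
  obtain ⟨c, hc⟩ := hT
  rw [qf_apply, hc, smul_mul_assoc, one_mul, Matrix.trace_smul, Matrix.trace_smul, Matrix.trace_one,
    Fintype.card_fin, smul_eq_mul, smul_eq_mul]
  ring

end forms

end Pool.Agent.W2helper27.OP
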