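import Pool.Agent.W2helper27.OP.Dens

/-! The main theorem: ordinary primes and the semisimple part of the monodromy Lie algebra. -/

set_option autoImplicit false

namespace Pool.Agent.W2helper27.OP

open NumberField IsDedekindDomain Polynomial
open Pool.Agent.W401.Cheb Pool.Agent.W528.Ord
open Pool.Agent.W528.Ord.MultSystem (IsDeg1 IsOver norm_mem)

section

variable {K : Type} [Field K] [NumberField K] {ℓ : ℕ} [Fact ℓ.Prime] {ι : Type}

/-- The motive `A i` is ordinary at the place `v` of degree one: for all embeddings `τ` of the algebraic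
closure of `K` into the algebraic closure of `ℚ_p` which induce `v`, and all embeddings `σ` of the
field of multiplications, the roots of the Frobenius polynomial of the `σ`-part have the absolute values
`p ^ (-a)`, with `a` in the list of its Hodge slopes. -/
def OrdinaryAt (A : ι → MotSystem K ℓ) (i : ι) (v : HeightOneSpectrum (𝓞 K)) : Prop :=
  ∀ (p : ℕ) [Fact p.Prime] (τ : AlgebraicClosure K →+* PadicAlgCl p), Ideal.absNorm v.asIdeal = p →
    (∀ x : 𝓞 K, x ∈ v.asIdeal ↔ ‖τ (algebraMap K (AlgebraicClosure K) x)‖ < 1) →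
    ∀ σ : (A i).E →+* AlgebraicClosure K, OrdPart A v τ i σ

lemma isOver_Qt {v : HeightOneSpectrum (𝓞 K)} {p : ℕ} [Fact p.Prime]
    (τ : AlgebraicClosure K →+* PadicAlgCl p)
    (h : ∀ x : 𝓞 K, x ∈ v.asIdeal ↔ ‖τ (algebraMap K (AlgebraicClosure K) x)‖ < 1) :
    IsOver (Qt τ) v := by
  have hcomap : (Qt τ).comap (algebraMap (𝓞 K) (𝓞 (AlgebraicClosure K))) = v.asIdeal := by
    ext x
    rw [Ideal.mem_comap, mem_Qt, h x]
    rfl
  have hpr := Qt_prime τ
  have hint : Algebra.IsIntegral (𝓞 K) (𝓞 (AlgebraicClosure K)) := inferInstance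
  have hmax : ((Qt τ).comap (algebraMap (𝓞 K) (𝓞 (AlgebraicClosure K)))).IsMaximal := by
    rw [hcomap]
    exact v.isMaximal
  exact ⟨Ideal.isMaximal_of_isIntegral_of_isMaximal_comap _ hmax, hcomap⟩

variable (A : ι → MotSystem K ℓ) {χ : GK K →* (PadicAlgCl ℓ)ˣ} {S : Finset ℕ}
  (hA : ∀ i, (A i).IsMotive χ S)

include hA in
theorem ordinaryAt_all [Finite ι] (hHT : HodgeTate A) (V : Set ι) (hV : DeterminedBy A V)
    {v : HeightOneSpectrum (𝓞 K)} (hv : IsDeg1 S v) (hord : ∀ i ∈ V, OrdinaryAt A i v) (i : ι) :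
    OrdinaryAt A i v := by
  intro p _ τ hpe hτ σ
  obtain ⟨γ, hγ⟩ := exists_isFrob v
  exact ord_all A hA hv hγ τ (isOver_Qt τ hτ) hpe (fun x => mem_Qt τ x) hHT V hV
    (fun i hi σ => hord i hi p τ hpe hτ σ) i σ

include hA in
theorem principle_of_determined [Finite ι] (hHT : HodgeTate A) (V : Set ι) (hV : DeterminedBy A V) :
    Principle A S V := by
  intro v hv Q hQ p _ τ hpe hτ hord i σ
  obtain ⟨γ, hγ⟩ := exists_isFrob v
  exact ord_all A hA hv hγ τ hQ hpe hτ hHT V hV hord i σ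

end

open Filter Topology in
/-- If the identity satisfies the orbit condition for all `i` in `V`, the places which are ordinary for
all `A i` have density one. -/
theorem density_one {K : Type} [Field K] [NumberField K] {ℓ : ℕ} [Fact ℓ.Prime] {ι : Type} [Fintype ι]
    (A : ι → MotSystem K ℓ) {χ : GK K →* (PadicAlgCl ℓ)ˣ} {S : Finset ℕ}
    (hA : ∀ i, (A i).IsMotive χ S) (hHT : HodgeTate A) (V : Set ι) (hV : DeterminedBy A V)
    (h1 : ∀ i ∈ V, (A i).Admissible 1) :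
    1 ≤ lowerDensity (fun v : HeightOneSpectrum (𝓞 K) => ∀ i, OrdinaryAt A i v) := by
  classical
  apply lowerDensity_ge
  intro ε hε
  have hun := dens_biUnion (Finset.univ.sigma (fun i : ι => Finset.range (A i).n))
    (fun x : (Σ _ : ι, ℕ) => (A x.1).Bad S x.2) (fun x _ => MotSystem.bad_dens (hA x.1) x.2)
  have h2 := dens_not_prime (K := K)
  have h3 := dens_finite _ (finite_norm_mem (K := K) S)
  have e0 := (dens_true (K := K)).eventually (lt_mem_nhds (show 1 - ε / 4 < 1 by linarith))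
  have e1 := hun.eventually (gt_mem_nhds (show (0:ℝ) < ε / 4 by positivity))
  have e2 := h2.eventually (gt_mem_nhds (show (0:ℝ) < ε / 4 by positivity))
  have e3 := h3.eventually (gt_mem_nhds (show (0:ℝ) < ε / 4 by positivity))
  filter_upwards [e0, e1, e2, e3] with N h0 h4 h5 h6
  have hle : dens (fun _ : HeightOneSpectrum (𝓞 K) => True) N ≤
      dens (fun v : HeightOneSpectrum (𝓞 K) => ∀ i, OrdinaryAt A i v) N +
      (dens (fun v : HeightOneSpectrum (𝓞 K) => ∃ x ∈ Finset.univ.sigma (fun i : ι => Finset.range (A i).n),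
        (A x.1).Bad S x.2 v) N +
      (dens (fun v : HeightOneSpectrum (𝓞 K) => ¬ (Ideal.absNorm v.asIdeal).Prime) N +
      dens (fun v : HeightOneSpectrum (𝓞 K) => Ideal.absNorm v.asIdeal ∈ S) N)) := by
    refine le_trans (dens_mono (Q := fun v => _ ∨ (_ ∨ (_ ∨ _))) ?_ N)
      (le_trans (dens_or _ _ N) (add_le_add_right (le_trans (dens_or _ _ N)
        (add_le_add_right (dens_or _ _ N) _)) _))
    intro v _
    by_cases hp : (Ideal.absNorm v.asIdeal).Prime
    · by_cases hS : Ideal.absNorm v.asIdeal ∈ S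
      · exact Or.inr (Or.inr (Or.inr hS))
      · by_cases hd : ∃ x ∈ Finset.univ.sigma (fun i : ι => Finset.range (A i).n), (A x.1).Bad S x.2 v
        · exact Or.inr (Or.inl hd)
        · left
          have hv : IsDeg1 S v := ⟨hp, hS⟩
          refine ordinaryAt_all A hA hHT V hV hv ?_
          intro i hi p _ τ hpe hτ σ
          have hQ := isOver_Qt τ hτ
          have hQm : (Qt τ).IsMaximal := hQ.1
          obtain ⟨γ, hγ⟩ := Pool.Agent.W352.ChAbs.exists_frob v (Qt τ) hQ.2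
          refine MotSystem.roots_part (hA i) hv hQ hpe (fun x => mem_Qt τ x) σ ?_
          intro k hk hdv
          apply hd
          refine ⟨⟨i, k⟩, ?_, hv, Qt τ, γ, σ, hQ, hγ, MotSystem.adm_of_one (h1 i hi) γ, hk, hdv⟩
          rw [Finset.mem_sigma]
          exact ⟨Finset.mem_univ _, Finset.mem_range.mpr hk.2.1⟩
    · exact Or.inr (Or.inr (Or.inl hp))
  linarith

/-- The realisations `R ℓ'` are strictly compatible: at the places of degree one outside `S` the
characteristic polynomial of the geometric Frobenius element (the inverse of `γ`) is `F v`. -/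
def StrictlyCompatible {K₀ : Type} [Field K₀] [NumberField K₀] (S : Finset ℕ) {r : ℕ}
    (R : ∀ (ℓ' : ℕ) [Fact ℓ'.Prime], GK K₀ →* Matrix.GeneralLinearGroup (Fin r) ℚ_[ℓ'])
    (F : HeightOneSpectrum (𝓞 K₀) → Polynomial ℤ) : Prop :=
  ∀ (ℓ' : ℕ) [Fact ℓ'.Prime] (v₀ : HeightOneSpectrum (𝓞 K₀)), IsDeg1 S v₀ →
    Ideal.absNorm v₀.asIdeal ≠ ℓ' → ∀ γ : GK K₀, IsFrob v₀ γ →
      (R ℓ' γ⁻¹ : Matrix (Fin r) (Fin r) ℚ_[ℓ']).charpoly = (F v₀).map (Int.castRingHom ℚ_[ℓ'])

/-- For every prime `ℓ'` different from the residue characteristic `p = N v₀` and every embedding `τ`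
of the field of algebraic numbers the Newton polygon of `R ℓ'` at `v₀` has the slopes `H`. -/
def Ordinary {K₀ : Type} [Field K₀] [NumberField K₀] {r : ℕ}
    (R : ∀ (ℓ' : ℕ) [Fact ℓ'.Prime], GK K₀ →* Matrix.GeneralLinearGroup (Fin r) ℚ_[ℓ'])
    (H : Multiset ℕ) (v₀ : HeightOneSpectrum (𝓞 K₀)) : Prop :=
  ∃ (p : ℕ) (_ : Fact p.Prime), Ideal.absNorm v₀.asIdeal = p ∧
    ∀ (ℓ' : ℕ) [Fact ℓ'.Prime], p ≠ ℓ' → ∀ γ : GK K₀, IsFrob v₀ γ →
      ∀ τ : algebraicClosure ℚ (PadicAlgCl ℓ') →+* PadicAlgCl p,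
        NewtonTau (R ℓ' γ⁻¹ : Matrix (Fin r) (Fin r) ℚ_[ℓ']) τ H

theorem ordinary_density (K₀ K : Type) [Field K₀] [NumberField K₀] [Field K] [NumberField K]
    [Algebra K₀ K] (ℓ : ℕ) [Fact ℓ.Prime] {ι : Type} [Fintype ι] (A : ι → MotSystem K ℓ) (m : ι → ℕ)
    (χ : GK K →* (PadicAlgCl ℓ)ˣ) (S : Finset ℕ) (hA : ∀ i, (A i).IsMotive χ S) (hHT : HodgeTate A)
    (V : Set ι) (hV : DeterminedBy A V) {r : ℕ}
    (R : ∀ (ℓ' : ℕ) [Fact ℓ'.Prime], GK K₀ →* Matrix.GeneralLinearGroup (Fin r) ℚ_[ℓ'])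
    (F : HeightOneSpectrum (𝓞 K₀) → Polynomial ℤ) (hR : StrictlyCompatible S R F)
    (hF : ∀ (v₀ : HeightOneSpectrum (𝓞 K₀)) (v : HeightOneSpectrum (𝓞 K)),
      v.asIdeal.comap (algebraMap (𝓞 K₀) (𝓞 K)) = v₀.asIdeal → IsDeg1 S v →
      (F v₀).map (Int.castRingHom (AlgebraicClosure K)) = MotSystem.prodPoly A m v)
    (hγ : ∃ γ : GK K, ∀ i ∈ V, (A i).Admissible γ) :
    0 < lowerDensity (Ordinary R (MotSystem.slopes A m)) := by
  refine lt_of_lt_of_le (lower_down' m χ S K₀ hA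
    (principle_of_determined A hA hHT V hV) F hF hγ) ?_
  apply lowerDensity_mono
  rintro v₀ ⟨hv, hN⟩
  have hN' := hN
  obtain ⟨hp, -⟩ := hN
  refine ⟨Ideal.absNorm v₀.asIdeal, hp, rfl, ?_⟩
  intro ℓ' _ hne γ hγ τ
  exact newtonTau_of _ τ _ (F v₀) (hR ℓ' v₀ hv hne γ hγ) hN'

end Pool.Agent.W2helper27.OP
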