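import Pool.Agent.N184.HK.P_MAJ
import Pool.Agent.W518.DN.NP
import Pool.Agent.W528.Ord.Newton

/-! Majorization of the valuations of the roots of a polynomial. -/

set_option autoImplicit false

namespace Pool.Agent.W2helper27.OP

open Polynomial

lemma above_of_min {n : ℕ} (a b : Fin n → ℚ) (hb : Monotone b) (hsum : ∑ j, a j = ∑ j, b j)
    (h : ∀ j, ∑ i, min (b j) (b i) ≤ ∑ i, min (b j) (a i)) (k : ℕ) :
    ∑ j ∈ Finset.univ.filter (fun j : Fin n => (j : ℕ) < k), b j ≤
      ∑ j ∈ Finset.univ.filter (fun j : Fin n => (j : ℕ) < k), a j := by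
  rcases Nat.eq_zero_or_pos k with rfl | hk
  · simp
  by_cases hkn : n ≤ k
  · have e : Finset.univ.filter (fun j : Fin n => (j : ℕ) < k) = Finset.univ := by
      apply Finset.filter_true_of_mem
      intro j _
      exact lt_of_lt_of_le j.2 hkn
    rw [e, hsum]
  push Not at hkn
  have hj : k - 1 < n := by omega
  have h1 := h ⟨k - 1, hj⟩
  rw [← Finset.sum_filter_add_sum_filter_not Finset.univ (fun j : Fin n => (j : ℕ) < k)
    (fun i => min (b ⟨k - 1, hj⟩) (b i)),
    ← Finset.sum_filter_add_sum_filter_not Finset.univ (fun j : Fin n => (j : ℕ) < k)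
    (fun i => min (b ⟨k - 1, hj⟩) (a i))] at h1
  have e1 : ∑ i ∈ Finset.univ.filter (fun j : Fin n => (j : ℕ) < k), min (b ⟨k - 1, hj⟩) (b i) =
      ∑ i ∈ Finset.univ.filter (fun j : Fin n => (j : ℕ) < k), b i := by
    refine Finset.sum_congr rfl fun i hi => min_eq_right (hb ?_)
    rw [Finset.mem_filter] at hi
    rw [Fin.le_def]
    change (i : ℕ) ≤ k - 1
    omega
  have e2 : ∑ i ∈ Finset.univ.filter (fun j : Fin n => ¬ (j : ℕ) < k), min (b ⟨k - 1, hj⟩) (b i) =
      ∑ i ∈ Finset.univ.filter (fun j : Fin n => ¬ (j : ℕ) < k), b ⟨k - 1, hj⟩ := by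
    refine Finset.sum_congr rfl fun i hi => min_eq_left (hb ?_)
    rw [Finset.mem_filter] at hi
    rw [Fin.le_def]
    change k - 1 ≤ (i : ℕ)
    omega
  have e3 : ∑ i ∈ Finset.univ.filter (fun j : Fin n => (j : ℕ) < k), min (b ⟨k - 1, hj⟩) (a i) ≤
      ∑ i ∈ Finset.univ.filter (fun j : Fin n => (j : ℕ) < k), a i :=
    Finset.sum_le_sum fun i _ => min_le_right _ _
  have e4 : ∑ i ∈ Finset.univ.filter (fun j : Fin n => ¬ (j : ℕ) < k), min (b ⟨k - 1, hj⟩) (a i) ≤
      ∑ i ∈ Finset.univ.filter (fun j : Fin n => ¬ (j : ℕ) < k), b ⟨k - 1, hj⟩ :=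
    Finset.sum_le_sum fun i _ => min_le_left _ _
  rw [e1, e2] at h1
  linarith

lemma maj_eq (M : Multiset ℚ) (h : List ℕ) (hs : h.Pairwise (· ≤ ·)) (hcard : Multiset.card M = h.length)
    (hsum : M.sum = (h.map (fun a : ℕ => (a : ℚ))).sum)
    (hmin : ∀ s : ℕ, (h.map (fun a : ℕ => min (s : ℚ) (a : ℚ))).sum ≤ (M.map (fun w => min (s : ℚ) w)).sum)
    (hsq : (h.map (fun a : ℕ => (a : ℚ) ^ 2)).sum ≤ (M.map (fun w => w ^ 2)).sum) :
    M = ((h.map (fun a : ℕ => (a : ℚ)) : List ℚ) : Multiset ℚ) := by
  set l := M.sort (· ≤ ·) with hl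
  have e1 : l.length = h.length := by rw [hl, Multiset.length_sort, hcard]
  have cl : (l : Multiset ℚ) = M := Multiset.sort_eq _ _
  let a : Fin h.length → ℚ := fun j => l.get (Fin.cast e1.symm j)
  let b : Fin h.length → ℚ := fun j => (h.get j : ℚ)
  have oa : List.ofFn a = l := by
    apply List.ext_get
    · simp [e1]
    · intro i _ _
      simp [a]
  have ob : List.ofFn b = h.map (fun a : ℕ => (a : ℚ)) := by
    apply List.ext_get
    · simp
    · intro i _ _
      simp [b]
  have sa : ∀ f : ℚ → ℚ, ∑ j, f (a j) = (M.map f).sum := by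
    intro f
    rw [← cl, Multiset.map_coe, Multiset.sum_coe, ← List.sum_ofFn]
    conv_rhs => rw [← oa]
    rw [List.map_ofFn]
    rfl
  have sb : ∀ f : ℚ → ℚ, ∑ j, f (b j) = (h.map (fun a : ℕ => f (a : ℚ))).sum := by
    intro f
    have : h.map (fun a : ℕ => f (a : ℚ)) = (h.map (fun a : ℕ => (a : ℚ))).map f := by
      rw [List.map_map]; rfl
    rw [this, ← ob, List.map_ofFn, List.sum_ofFn]
    rfl
  have mono : Monotone a := by
    intro i j hij
    exact (Multiset.pairwise_sort M (· ≤ ·)).rel_get_of_le (by simpa using hij)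
  have monob : Monotone b := by
    intro i j hij
    have h3 : h.get i ≤ h.get j := hs.rel_get_of_le hij
    change ((h.get i : ℕ) : ℚ) ≤ ((h.get j : ℕ) : ℚ)
    exact Nat.cast_le.2 h3
  have hend : ∑ j, a j = ∑ j, b j := by
    have i1 := sa (fun x => x)
    have i2 := sb (fun x => x)
    rw [Multiset.map_id'] at i1
    rw [i1, i2, hsum]
  have habove := above_of_min a b monob hend (fun j => by
    have h1 := hmin (h.get j)
    rw [← sa (fun w => min ((h.get j : ℕ) : ℚ) w), ← sb (fun w => min ((h.get j : ℕ) : ℚ) w)] at h1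
    exact h1)
  obtain ⟨-, m2⟩ := Pool.Agent.N184.HK.t_maj h.length a b mono habove hend
  have hab := m2 (by rw [sa (fun x => x ^ 2), sb (fun x => x ^ 2)]; exact hsq)
  rw [← cl, ← oa, ← ob, hab]

section norm

variable {L : Type} [NormedField L] [IsUltrametricDist L]

/-- The bound for the coefficients gives a bound for the products of the `max r ‖y‖`, `y` the roots. -/
lemma prod_max_le (f : L[X]) (n : ℕ) (hm : f.Monic) (hn : f.natDegree = n) (hs : f.Splits) (q : ℝ)
    (hq0 : 0 < q) (l : List ℕ) (hlen : l.length = n)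
    (hle : ∀ k ≤ n, ‖f.coeff (n - k)‖ ≤ q ^ (l.take k).sum) (r : ℝ) (hr : 0 < r) :
    (f.roots.map fun y => max r ‖y‖).prod ≤ (l.map fun a => max r (q ^ a)).prod := by
  classical
  set v : AbsoluteValue L ℝ := NormedField.toAbsoluteValue L with hv
  have hvn : ∀ x : L, v x = ‖x‖ := fun x => rfl
  have hna : IsNonarchimedean v := fun x y => IsUltrametricDist.norm_add_le_max x y
  have hprod : f = (f.roots.map fun y => X - C y).prod := by
    conv_lhs => rw [hs.eq_prod_roots, hm.leadingCoeff, C_1, one_mul]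
  have h1 := Pool.Agent.W518.DN.gn_linear (v := v) hna hr f.roots
  rw [← hprod] at h1
  have h2 : (f.roots.map fun y => max r (v y)).prod = (f.roots.map fun y => max r ‖y‖).prod := rfl
  rw [← h2, ← h1]
  obtain ⟨i, hi⟩ := exists_eq_gaussNorm v r f
  rw [hi, hvn]
  by_cases hin : i ≤ n
  · have h3 := hle (n - i) (by omega)
    rw [show n - (n - i) = i by omega] at h3
    have h5 : (l.map fun a => max r (q ^ a)).prod = ((l.take (n - i)).map fun a => max r (q ^ a)).prod *
        ((l.drop (n - i)).map fun a => max r (q ^ a)).prod := by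
      rw [← List.prod_append, ← List.map_append, List.take_append_drop]
    rw [h5]
    have h6 := Pool.Agent.W528.Ord.prod_max_ge q r hq0 hr (l.take (n - i))
    have h7 := Pool.Agent.W528.Ord.prod_max_ge q r hq0 hr (l.drop (n - i))
    have h8 : (l.drop (n - i)).length = i := by
      rw [List.length_drop, hlen]; omega
    rw [h8] at h7
    exact mul_le_mul (h3.trans h6.1) h7.2.1 (by positivity) h6.2.2.le
  · have : f.coeff i = 0 := coeff_eq_zero_of_natDegree_lt (by omega)
    rw [this, norm_zero, zero_mul]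
    exact (Pool.Agent.W528.Ord.prod_max_ge q r hq0 hr l).2.2.le

end norm

/-- The valuations of the roots of a polynomial whose Newton polygon lies above the polygon with the
slopes `h`, with the same end point, are the slopes `h` if the sums of their squares are equal. -/
lemma roots_of_sq {L : Type} [NormedField L] [IsUltrametricDist L] (f : L[X]) (n : ℕ) (hm : f.Monic)
    (hn : f.natDegree = n) (hs : f.Splits) (q : ℝ) (hq0 : 0 < q) (hq1 : q < 1) (h : List ℕ)
    (hh : h.Pairwise (· ≤ ·)) (hlen : h.length = n)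
    (hle : ∀ k ≤ n, ‖f.coeff (n - k)‖ ≤ q ^ (h.take k).sum) (w : L → ℚ)
    (hw : ∀ y ∈ f.roots, ‖y‖ = q ^ ((w y : ℝ)))
    (hsum : (f.roots.map w).sum = (h.map (fun a : ℕ => (a : ℚ))).sum)
    (hsq : (h.map (fun a : ℕ => (a : ℚ) ^ 2)).sum ≤ (f.roots.map (fun y => w y ^ 2)).sum) :
    f.roots.map w = ((h.map (fun a : ℕ => (a : ℚ)) : List ℚ) : Multiset ℚ) := by
  have hcard : Multiset.card f.roots = n := by rw [← hn]; exact splits_iff_card_roots.mp hs
  apply maj_eq _ h hh (by rw [Multiset.card_map, hcard, hlen]) hsum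
  · intro s
    have h1 := prod_max_le f n hm hn hs q hq0 h hlen hle (q ^ s) (by positivity)
    have e1 : (f.roots.map fun y => max (q ^ s) ‖y‖).prod =
        q ^ ((((f.roots.map w).map (fun x => min (s : ℚ) x)).sum : ℚ) : ℝ) := by
      rw [Multiset.map_map]
      have : ∀ T : Multiset L, (∀ y ∈ T, ‖y‖ = q ^ ((w y : ℝ))) →
          (T.map fun y => max (q ^ s) ‖y‖).prod =
            q ^ (((T.map ((fun x => min (s : ℚ) x) ∘ w)).sum : ℚ) : ℝ) := by
        intro T
        induction T using Multiset.induction_on with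
        | empty => intro _; simp
        | cons y T ih =>
          intro hT
          rw [Multiset.map_cons, Multiset.prod_cons, Multiset.map_cons, Multiset.sum_cons,
            ih fun y hy => hT y (Multiset.mem_cons_of_mem hy), Rat.cast_add, Real.rpow_add hq0,
            hT y (Multiset.mem_cons_self y T)]
          congr 1
          rw [Function.comp_apply, Rat.cast_min, Rat.cast_natCast, ← Real.rpow_natCast q s]
          rcases le_total ((s : ℝ)) (w y : ℝ) with hle | hle
          · rw [min_eq_left hle, max_eq_left (Real.rpow_le_rpow_of_exponent_ge hq0 hq1.le hle)]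
          · rw [min_eq_right hle, max_eq_right (Real.rpow_le_rpow_of_exponent_ge hq0 hq1.le hle)]
      exact this _ hw
    have e2 : (h.map fun a => max (q ^ s) (q ^ a)).prod =
        q ^ (((h.map (fun a : ℕ => min (s : ℚ) (a : ℚ))).sum : ℚ) : ℝ) := by
      clear hh hlen hle hsum hsq h1
      induction h with
      | nil => simp
      | cons a h ih =>
        rw [List.map_cons, List.prod_cons, List.map_cons, List.sum_cons, Rat.cast_add,
          Real.rpow_add hq0, ih]
        congr 1
        rw [Rat.cast_min, Rat.cast_natCast, Rat.cast_natCast, ← Real.rpow_natCast q s,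
          ← Real.rpow_natCast q a]
        rcases le_total ((s : ℝ)) (a : ℝ) with hle | hle
        · rw [min_eq_left hle, max_eq_left (Real.rpow_le_rpow_of_exponent_ge hq0 hq1.le hle)]
        · rw [min_eq_right hle, max_eq_right (Real.rpow_le_rpow_of_exponent_ge hq0 hq1.le hle)]
    rw [e1, e2] at h1
    have h2 := (Real.rpow_le_rpow_left_iff_of_base_lt_one hq0 hq1).1 h1
    exact_mod_cast h2
  · rw [Multiset.map_map]
    exact hsq

end Pool.Agent.W2helper27.OP
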