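import Pool.Agent.W2helper27.OP.Core

/-! A place which is ordinary for the motives in which all simple factors occur is ordinary for all
motives. -/

set_option autoImplicit false

namespace Pool.Agent.W2helper27.OP

open NumberField IsDedekindDomain Polynomial
open Pool.Agent.W401.Cheb Pool.Agent.W528.Ord
open Pool.Agent.W528.Ord.MultSystem (IsDeg1 IsOver norm_mem)

section logs

variable {p : ℕ} [Fact p.Prime]

open Classical in
/-- The logarithm to the base `1 / p`, on the rational powers of `p`. -/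
noncomputable def qlog (p : ℕ) (x : ℝ) : ℚ :=
  if h : ∃ c : ℚ, x = (1 / (p : ℝ)) ^ (c : ℝ) then h.choose else 0

lemma qlog_eq (c : ℚ) : qlog p ((1 / (p : ℝ)) ^ (c : ℝ)) = c := by
  have h : ∃ c' : ℚ, (1 / (p : ℝ)) ^ (c : ℝ) = (1 / (p : ℝ)) ^ (c' : ℝ) := ⟨c, rfl⟩
  rw [qlog, dif_pos h]
  exact (rpow_inj h.choose_spec).symm

lemma qlog_norm {y : PadicAlgCl p} (hy : y ≠ 0) : qlog p ‖y‖ = val y := by
  rw [norm_val hy, qlog_eq]

lemma qlog_pow (a : ℕ) : qlog p ((1 / (p : ℝ)) ^ a) = (a : ℚ) := by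
  have := qlog_eq (p := p) (a : ℚ)
  rwa [Rat.cast_natCast, Real.rpow_natCast] at this

end logs

section fam

variable {K : Type} [Field K] [NumberField K] {ℓ : ℕ} [Fact ℓ.Prime] {ι : Type}
  (A : ι → MotSystem K ℓ) {χ : GK K →* (PadicAlgCl ℓ)ˣ} {S : Finset ℕ}
  (hA : ∀ i, (A i).IsMotive χ S) {v : HeightOneSpectrum (𝓞 K)} (hv : IsDeg1 S v)
  {γ : GK K} (hγ : IsFrob v γ)
  {p : ℕ} [Fact p.Prime] (τ : AlgebraicClosure K →+* PadicAlgCl p)

/-- The `σ`-part of `A i` is ordinary at `v` with respect to `τ`. -/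
def OrdPart (A : ι → MotSystem K ℓ) (v : HeightOneSpectrum (𝓞 K))
    (τ : AlgebraicClosure K →+* PadicAlgCl p) (i : ι) (σ : (A i).E →+* AlgebraicClosure K) : Prop :=
  (((A i).poly v (τ.comp σ)).roots.map fun y => ‖y‖) =
    (((A i).h σ : Multiset ℕ)).map fun a => (1 / (p : ℝ)) ^ a

lemma roots_tau (i : ι) (σ : (A i).E →+* AlgebraicClosure K) :
    ((A i).poly v (τ.comp σ)).roots = ((A i).poly v σ).roots.map τ := by
  rw [← Splits.roots_map (IsAlgClosed.splits _)]
  congr 1
  unfold MotSystem.poly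
  rw [Polynomial.map_map]
  rfl

include hA hv hγ in
lemma val_of_ord {i : ι} {σ : (A i).E →+* AlgebraicClosure K} (h : OrdPart A v τ i σ) :
    (((A i).poly v σ).roots.map fun β => val (τ β)) =
      (((A i).h σ).map (fun a : ℕ => (a : ℚ)) : List ℚ) := by
  unfold OrdPart at h
  rw [roots_tau] at h
  have h1 := congrArg (fun M : Multiset ℝ => M.map (qlog p)) h
  simp only [Multiset.map_map] at h1
  have e1 : (((A i).poly v σ).roots.map (qlog p ∘ (fun y => ‖y‖) ∘ τ)) =
      (((A i).poly v σ).roots.map fun β => val (τ β)) := by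
    refine Multiset.map_congr rfl fun β hβ => ?_
    exact qlog_norm (tau_ne τ (root_ne A hA hv hγ i σ hβ))
  have e2 : (((A i).h σ : Multiset ℕ).map (qlog p ∘ fun a => (1 / (p : ℝ)) ^ a)) =
      (((A i).h σ).map (fun a : ℕ => (a : ℚ)) : List ℚ) := by
    rw [Multiset.map_coe]
    congr 1
    exact List.map_congr_left fun a _ => qlog_pow a
  rw [← e1, ← e2]
  exact h1

variable {Q : Ideal (𝓞 (AlgebraicClosure K))} (hQ : IsOver Q v) (hpe : Ideal.absNorm v.asIdeal = p)
  (hτ : ∀ x : 𝓞 (AlgebraicClosure K), x ∈ Q ↔ ‖τ (x : AlgebraicClosure K)‖ < 1)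

include hA hv hγ hQ hpe hτ in
/-- The Newton polygon and the Hodge polygon have the same end point. -/
lemma sum_val (i : ι) (σ : (A i).E →+* AlgebraicClosure K) :
    (((A i).poly v σ).roots.map fun β => val (τ β)).sum =
      (((A i).h σ).map (fun a : ℕ => (a : ℚ))).sum := by
  obtain ⟨hm, hn⟩ := (hA i).isMonic v hv
  obtain ⟨h1, -⟩ := (hA i).isHodge σ
  have hle := ((hA i).isMazur v hv Q hQ σ).2
  rw [hpe] at hle
  have h2 := norm_of_locEq (p := p) hτ hle
  have h3 : (((A i).cof v 0 σ : 𝓞 (AlgebraicClosure K)) : AlgebraicClosure K) =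
      ((A i).poly v σ).coeff 0 := by
    unfold MotSystem.poly
    rw [coeff_map]
    rfl
  have hmon : ((A i).poly v σ).Monic := hm.map _
  have h4 : ((A i).poly v σ).coeff 0 = (-1) ^ ((A i).poly v σ).natDegree * ((A i).poly v σ).roots.prod := by
    have h5 := (IsAlgClosed.splits ((A i).poly v σ)).coeff_zero_eq_prod_roots_of_monic hmon
    exact h5
  rw [h3, h4, map_mul, map_pow, map_neg, map_one, norm_mul, norm_pow, norm_neg, norm_one, one_pow,
    one_mul] at h2
  have h6 : ∀ T : Multiset (AlgebraicClosure K), (∀ β ∈ T, β ≠ 0) →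
      ‖τ T.prod‖ = (1 / (p : ℝ)) ^ (((T.map fun β => val (τ β)).sum : ℚ) : ℝ) := by
    intro T
    induction T using Multiset.induction_on with
    | empty => intro _; simp
    | cons β T ih =>
      intro hT
      rw [Multiset.prod_cons, map_mul, norm_mul, ih fun y hy => hT y (Multiset.mem_cons_of_mem hy),
        norm_val (tau_ne τ (hT β (Multiset.mem_cons_self β T))), Multiset.map_cons,
        Multiset.sum_cons, Rat.cast_add, Real.rpow_add base_pos]
  rw [h6 _ fun β hβ => root_ne A hA hv hγ i σ hβ] at h2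
  have h7 : (A i).hp σ (A i).n = ((A i).h σ).sum := by
    unfold MotSystem.hp
    rw [List.take_of_length_le (le_of_eq h1)]
  rw [h7, ← Real.rpow_natCast] at h2
  have h8 : (((((A i).h σ).sum : ℕ) : ℝ)) = ((((((A i).h σ).map (fun a : ℕ => (a : ℚ))).sum : ℚ)) : ℝ) := by
    have : ((((A i).h σ).sum : ℕ) : ℚ) = (((A i).h σ).map (fun a : ℕ => (a : ℚ))).sum :=
      map_list_sum (Nat.castRingHom ℚ) _
    rw [← this, Rat.cast_natCast]
  rw [h8] at h2
  exact rpow_inj h2

lemma cast_list {k : Type} [Field k] [CharZero k] (h : List ℕ) :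
    (h.map fun a : ℕ => (a : k)).sum = (((h.map fun a : ℕ => (a : ℚ)).sum : ℚ) : k) ∧
    (h.map fun a : ℕ => (a : k) ^ 2).sum = (((h.map fun a : ℕ => (a : ℚ) ^ 2).sum : ℚ) : k) := by
  induction h with
  | nil => simp
  | cons a h ih =>
    obtain ⟨h1, h2⟩ := ih
    constructor
    · rw [List.map_cons, List.sum_cons, List.map_cons, List.sum_cons, h1, Rat.cast_add,
        Rat.cast_natCast]
    · rw [List.map_cons, List.sum_cons, List.map_cons, List.sum_cons, h2, Rat.cast_add,
        Rat.cast_pow, Rat.cast_natCast]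

lemma quo_of_simple {X : Type} {n : X → ℕ} {k : Type} [Field k] {G : Type} [Group G]
    {ρ : ∀ x, G → Matrix (Fin (n x)) (Fin (n x)) k} (hone : ∀ x, ρ x 1 = 1)
    (hmul : ∀ x g h, ρ x (g * h) = ρ x g * ρ x h) {x : X} (h : SimpleOn ρ x) :
    Quo (tang ρ) (scal x ⊓ tang ρ) := by
  refine ⟨⟨inf_le_right, fun t ht u hu => ⟨?_, tang_bracket ρ hone hmul ht hu.2⟩⟩, ?_, ?_⟩
  · obtain ⟨c, hc⟩ := hu.1
    refine ⟨0, ?_⟩
    rw [Pi.sub_apply, Pi.mul_apply, Pi.mul_apply, hc, mul_smul_comm, smul_mul_assoc, mul_one, one_mul,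
      sub_self, zero_smul]
  · intro a ha
    rcases h.1 a ⟨fun U hU => ha.1 hU, fun T hT U hU => ha.2 T hT U hU⟩ with h1 | h1
    · exact Or.inl fun U hU => ⟨h1 U hU, ha.1 hU⟩
    · right
      intro T hT
      obtain ⟨U, hU, hs⟩ := h1 T hT
      have e : T = U + (T - U) := by abel
      rw [e]
      exact Submodule.add_mem_sup hU ⟨hs, (tang ρ).sub_mem hT (ha.1 hU)⟩
  · intro hab T hT
    exact ⟨h.2 (fun T T' hT hT' => (hab T hT T' hT').1) T hT, hT⟩

include hA hv hγ hQ hpe hτ in
/-- **Ordinary places and simple factors.** If the semisimple part of the monodromy Lie algebra is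
determined by the motives `A i` with `i` in `V`, and all parts of these motives are ordinary at `v`,
then all parts of all `A i` are ordinary at `v`. -/
theorem ord_all [Finite ι] (hHT : HodgeTate A) (V : Set ι) (hV : DeterminedBy A V)
    (hord : ∀ i ∈ V, ∀ σ, OrdPart A v τ i σ) (i : ι) (σ : (A i).E →+* AlgebraicClosure K) :
    OrdPart A v τ i σ := by
  classical
  let j : AlgebraicClosure K →+* PadicAlgCl ℓ :=
    haveI : Algebra.IsAlgebraic ℚ (AlgebraicClosure K) := Algebra.IsAlgebraic.trans ℚ K _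
    (IsAlgClosed.lift (R := ℚ) (S := AlgebraicClosure K) (M := PadicAlgCl ℓ)).toRingHom
  obtain ⟨N, hN, hN'⟩ := exists_newton A hA hv hγ j τ
  obtain ⟨H, hH, hH'⟩ := hHT j
  haveI : Fintype {x : Part A // x.1 ∈ V} := Fintype.ofFinite _
  have hone : ∀ x : Part A, rep A x 1 = 1 := by
    intro x
    change (((A x.1).ρ x.2 1 : Matrix.GeneralLinearGroup _ _) :
      Matrix (Fin (A x.1).n) (Fin (A x.1).n) (PadicAlgCl ℓ)) = 1
    rw [map_one, Units.val_one]
  have hmul : ∀ (x : Part A) (g h : GK K), rep A x (g * h) = rep A x g * rep A x h := by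
    intro x g h
    change (((A x.1).ρ x.2 (g * h) : Matrix.GeneralLinearGroup _ _) :
      Matrix (Fin (A x.1).n) (Fin (A x.1).n) (PadicAlgCl ℓ)) = _
    rw [map_mul, Units.val_mul]
    rfl
  -- the traces are equal
  have htr : ∀ x : Part A, Matrix.trace (N x) = Matrix.trace (H x) := by
    rintro ⟨i, t⟩
    obtain ⟨σ, rfl⟩ := exists_sigma j t
    rw [(hN' i σ).1, (hH' i σ).trace.1, (cast_list (k := PadicAlgCl ℓ) _).1, sum_val A hA hv hγ τ hQ hpe hτ i σ]
  -- the parts of the motives with index in `V`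
  have hval : ∀ i ∈ V, ∀ σ : (A i).E →+* AlgebraicClosure K,
      (((A i).poly v σ).roots.map fun β => val (τ β) ^ 2).sum =
        (((A i).h σ).map (fun a : ℕ => (a : ℚ) ^ 2)).sum := by
    intro i hi σ
    have := congrArg (fun M : Multiset ℚ => (M.map fun c => c ^ 2).sum)
      (val_of_ord A hA hv hγ τ (hord i hi σ))
    simp only [Multiset.map_map] at this
    rw [Multiset.map_coe, Multiset.sum_coe, List.map_map] at this
    exact this
  have key := forms_eq (k := PadicAlgCl ℓ) (X := {x : Part A // x.1 ∈ V})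
    (fun x => scal (n := rk A) x.1) (fun x => qf (n := rk A) x.1) (fun x => qf_inv x.1)
    (fun x T hT T' => qf_scal x.1 hT T') N H (by
      rintro ⟨⟨i, t⟩, hi⟩
      obtain ⟨σ, rfl⟩ := exists_sigma j t
      rw [qf_apply, qf_apply, htr, (hN' i σ).2.1, hval i hi σ, (hH' i σ).trace.2, (cast_list (k := PadicAlgCl ℓ) _).2])
    Finset.univ (tang (rep A))
    (fun x _ => quo_of_simple hone hmul (hV.simple x.1 x.2)) hN hH (by
      rintro ⟨⟨i, t⟩, hi⟩ _ hz
      obtain ⟨σ, rfl⟩ := exists_sigma j t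
      have h1 := hz H hH H hH
      rw [qf_apply, (hH' i σ).trace.1, (hH' i σ).trace.2, (cast_list (k := PadicAlgCl ℓ) _).2, (cast_list (k := PadicAlgCl ℓ) _).1] at h1
      have hlen : ((A i).h σ).length = rk A ⟨i, j.comp σ⟩ := ((hA i).isHodge σ).1
      obtain ⟨c, hc⟩ := const_of_sq ((A i).h σ) (by
        have h5 : ((((((A i).h σ).length : ℚ) * (((A i).h σ).map fun a : ℕ => (a : ℚ) ^ 2).sum : ℚ)) :
            PadicAlgCl ℓ) = ((((((A i).h σ).map fun a : ℕ => (a : ℚ)).sum ^ 2 : ℚ)) : PadicAlgCl ℓ) := by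
          rw [Rat.cast_mul, Rat.cast_pow, Rat.cast_natCast, hlen, sq]
          exact sub_eq_zero.1 h1
        exact_mod_cast h5)
      refine ⟨⟨((c : ℚ) : PadicAlgCl ℓ), (hN' i σ).2.2 (c : ℚ) fun β hβ => ?_⟩,
        ⟨(c : PadicAlgCl ℓ), (hH' i σ).scalar hc⟩⟩
      have h6 : val (τ β) ∈ (((A i).poly v σ).roots.map fun β => val (τ β)) :=
        Multiset.mem_map.2 ⟨β, hβ, rfl⟩
      rw [val_of_ord A hA hv hγ τ (hord i hi σ), Multiset.mem_coe, List.mem_map] at h6
      obtain ⟨a, ha, hae⟩ := h6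
      rw [← hae, hc a ha]) (qf (n := rk A) ⟨i, j.comp σ⟩) (qf_inv _)
    (fun z hz hzX t _ => qf_scal _ (hV.faithful z hz (fun x hx => hzX ⟨x, hx⟩ (Finset.mem_univ _)) _) t)
    (fun s hs t ht => tang_bracket (rep A) hone hmul hs ht)
  -- the sums of the squares of the slopes are equal
  obtain ⟨hm, hn⟩ := (hA i).isMonic v hv
  obtain ⟨h1, h2, h3, h4, h5⟩ := (hA i).isHodge σ
  have hsq : (((A i).poly v σ).roots.map fun β => val (τ β) ^ 2).sum =
      (((A i).h σ).map (fun a : ℕ => (a : ℚ) ^ 2)).sum := by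
    rcases Nat.eq_zero_or_pos (A i).n with h0 | h0
    · have e1 : (A i).h σ = [] := List.length_eq_zero_iff.1 (h1.trans h0)
      have e2 : ((A i).poly v σ).roots = 0 := by
        rw [← Multiset.card_eq_zero]
        have h6 : ((A i).poly v σ).natDegree = 0 := by
          unfold MotSystem.poly
          rw [hm.natDegree_map, hn, h0]
        have := Polynomial.card_roots' ((A i).poly v σ)
        omega
      rw [e1, e2]
      simp
    · have hrk : (rk A ⟨i, j.comp σ⟩ : PadicAlgCl ℓ) ≠ 0 := by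
        have : (A i).n ≠ 0 := h0.ne'
        exact_mod_cast this
      rw [qf_apply, qf_apply, htr] at key
      have h6 := mul_left_cancel₀ hrk (sub_left_injective key)
      rw [(hN' i σ).2.1, (hH' i σ).trace.2, (cast_list (k := PadicAlgCl ℓ) _).2] at h6
      exact_mod_cast h6
  -- majorization
  have hco : ∀ l, ((A i).poly v (τ.comp σ)).coeff l =
      τ (((A i).cof v l σ : 𝓞 (AlgebraicClosure K)) : AlgebraicClosure K) := by
    intro l
    unfold MotSystem.poly
    rw [coeff_map]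
    rfl
  have hne : ∀ y ∈ ((A i).poly v (τ.comp σ)).roots, y ≠ 0 := by
    intro y hy
    rw [roots_tau, Multiset.mem_map] at hy
    obtain ⟨β, hβ, rfl⟩ := hy
    exact tau_ne τ (root_ne A hA hv hγ i σ hβ)
  have hfin := roots_of_sq ((A i).poly v (τ.comp σ)) (A i).n (hm.map _) (by
      unfold MotSystem.poly; rw [hm.natDegree_map, hn]) (IsAlgClosed.splits _) (1 / (p : ℝ)) base_pos
      base_lt ((A i).h σ) h2 h1 (fun l hl => by
        rw [hco]
        have h := ((hA i).isMazur v hv Q hQ σ).1 l hl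
        rw [hpe] at h
        exact norm_of_locDvd (p := p) hτ h) val (fun y hy => norm_val (hne y hy)) (by
        rw [roots_tau, Multiset.map_map]
        exact sum_val A hA hv hγ τ hQ hpe hτ i σ) (by
        rw [roots_tau, Multiset.map_map]
        exact hsq.ge)
  unfold OrdPart
  have h6 := congrArg (fun M : Multiset ℚ => M.map fun c : ℚ => (1 / (p : ℝ)) ^ (c : ℝ)) hfin
  simp only [Multiset.map_map] at h6
  have e1 : (((A i).poly v (τ.comp σ)).roots.map fun y => ‖y‖) =
      (((A i).poly v (τ.comp σ)).roots.map ((fun c : ℚ => (1 / (p : ℝ)) ^ (c : ℝ)) ∘ val)) :=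
    Multiset.map_congr rfl fun y hy => norm_val (hne y hy)
  rw [e1, h6, Multiset.map_coe, List.map_map, Multiset.map_coe]
  congr 1
  refine List.map_congr_left fun a _ => ?_
  rw [Function.comp_apply, Rat.cast_natCast, Real.rpow_natCast]

end fam

end Pool.Agent.W2helper27.OP
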