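import Pool.Agent.W2helper27.OP.Cheval

/-! Tangent vectors of the Zariski closure of a set of families of matrices. -/

set_option autoImplicit false

namespace Pool.Agent.W2helper27.OP

open Matrix Module

section gen

variable {k P : Type} [Field k] [CommRing P] [Algebra k P]

lemma gen_mul (φ : P →ₐ[k] P) (a b : k) : ∀ (N M1 M2 : ℕ), M1 + M2 = N → ∀ f1 f2 : P,
    ((φ.toLinearMap - a • (1 : Module.End k P)) ^ M1) f1 = 0 →
    ((φ.toLinearMap - b • (1 : Module.End k P)) ^ M2) f2 = 0 →
    ((φ.toLinearMap - (a * b) • (1 : Module.End k P)) ^ N) (f1 * f2) = 0 := by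
  intro N
  induction N with
  | zero =>
    intro M1 M2 h f1 f2 h1 _
    have : M1 = 0 := by omega
    rw [this, pow_zero, Module.End.one_apply] at h1
    rw [h1, zero_mul, map_zero]
  | succ N ih =>
    intro M1 M2 h f1 f2 h1 h2
    rcases M1 with _ | m1
    · rw [pow_zero, Module.End.one_apply] at h1
      rw [h1, zero_mul, map_zero]
    rcases M2 with _ | m2
    · rw [pow_zero, Module.End.one_apply] at h2
      rw [h2, mul_zero, map_zero]
    rw [pow_succ, Module.End.mul_apply]
    have e : (φ.toLinearMap - (a * b) • (1 : Module.End k P)) (f1 * f2) =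
        ((φ.toLinearMap - a • (1 : Module.End k P)) f1) * φ f2 +
        (a • f1) * ((φ.toLinearMap - b • (1 : Module.End k P)) f2) := by
      simp only [LinearMap.sub_apply, AlgHom.toLinearMap_apply, LinearMap.smul_apply,
        Module.End.one_apply, map_mul]
      rw [Algebra.smul_def, Algebra.smul_def, Algebra.smul_def, map_mul]
      ring
    rw [e, map_add, ih m1 (m2 + 1) (by omega), ih (m1 + 1) m2 (by omega), add_zero]
    · rw [map_smul, h1, smul_zero]
    · rw [← Module.End.mul_apply, ← pow_succ]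
      exact h2
    · rw [← Module.End.mul_apply, ← pow_succ]
      exact h1
    · have hc : Commute (φ.toLinearMap) ((φ.toLinearMap - b • (1 : Module.End k P)) ^ (m2 + 1)) := by
        apply Commute.pow_right
        exact (Commute.refl _).sub_right ((Commute.one_right _).smul_right b)
      have h3 := congrArg (fun F : Module.End k P => F f2) hc.eq
      simp only [Module.End.mul_apply] at h3
      rw [h2, map_zero] at h3
      exact h3.symm

/-- A derivation which is the function `w` of the algebra endomorphism `φ` on a generating set of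
generalized eigenvectors is a polynomial in `φ` on every element. -/
lemma exists_poly_deriv (φ : P →ₐ[k] P) (D : Derivation k P P) (w : k → k) (f : P)
    (hf : f ∈ Submodule.span k {f : P | ∃ β : k,
      (∃ m : ℕ, ((φ.toLinearMap - β • (1 : Module.End k P)) ^ m) f = 0) ∧ D f = w β • f}) :
    ∃ q : Polynomial k, D f = (Polynomial.aeval φ.toLinearMap q) f := by
  classical
  suffices H : ∃ (B : Finset k) (M : ℕ), ∀ q : Polynomial k,
      (∀ β ∈ B, (Polynomial.X - Polynomial.C β) ^ M ∣ q - Polynomial.C (w β)) →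
      D f = (Polynomial.aeval φ.toLinearMap q) f by
    obtain ⟨B, M, H⟩ := H
    obtain ⟨q, hq⟩ := exists_interp B M w
    exact ⟨q, H q hq⟩
  induction hf using Submodule.span_induction with
  | mem f hf =>
    obtain ⟨β, ⟨m, hm⟩, hD⟩ := hf
    refine ⟨{β}, m, fun q hq => ?_⟩
    obtain ⟨r, hr⟩ := hq β (Finset.mem_singleton_self β)
    have h1 : q = r * (Polynomial.X - Polynomial.C β) ^ m + Polynomial.C (w β) := by
      rw [mul_comm r, ← hr]; ring
    have h2 : (φ.toLinearMap - algebraMap k (Module.End k P) β) =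
        (φ.toLinearMap - β • (1 : Module.End k P)) := by rw [Algebra.algebraMap_eq_smul_one]
    rw [hD, h1, map_add, map_mul, map_pow, map_sub, Polynomial.aeval_X, Polynomial.aeval_C,
      Polynomial.aeval_C, LinearMap.add_apply, Module.End.mul_apply, h2, hm, map_zero, zero_add,
      Module.algebraMap_end_apply]
  | zero => exact ⟨∅, 0, fun q _ => by simp⟩
  | add f g _ _ hf hg =>
    obtain ⟨B, M, H⟩ := hf
    obtain ⟨B', M', H'⟩ := hg
    refine ⟨B ∪ B', max M M', fun q hq => ?_⟩
    rw [map_add, map_add, H q, H' q]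
    · exact fun β hβ => (pow_dvd_pow _ (le_max_right M M')).trans (hq β (Finset.mem_union_right _ hβ))
    · exact fun β hβ => (pow_dvd_pow _ (le_max_left M M')).trans (hq β (Finset.mem_union_left _ hβ))
  | smul c f _ hf =>
    obtain ⟨B, M, H⟩ := hf
    refine ⟨B, M, fun q hq => ?_⟩
    rw [Derivation.map_smul, map_smul, H q hq]

end gen

section tang

variable {k : Type} [Field k] {X : Type} {n : X → ℕ}

/-- The family of matrices `T` is tangent at the identity to the Zariski closure of the set of the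
families `(ρ x g)`, `g` in `G`: for every polynomial `f` in the entries which vanishes at all `ρ g`, the
coefficient of `t` in `f (1 + t T)` is zero. -/
def IsTangent {G : Type} (ρ : ∀ x, G → Matrix (Fin (n x)) (Fin (n x)) k)
    (T : ∀ x, Matrix (Fin (n x)) (Fin (n x)) k) : Prop :=
  ∀ f : MvPolynomial (Σ x, Fin (n x) × Fin (n x)) k,
    (∀ g : G, MvPolynomial.eval (fun c => ρ c.1 g c.2.1 c.2.2) f = 0) →
    (MvPolynomial.aeval (fun c : Σ x, Fin (n x) × Fin (n x) =>
      Polynomial.C ((1 : Matrix (Fin (n c.1)) (Fin (n c.1)) k) c.2.1 c.2.2) +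
      Polynomial.C (T c.1 c.2.1 c.2.2) * Polynomial.X) f : Polynomial k).coeff 1 = 0

/-- The coordinates of a family of matrices. -/
def pt (h : ∀ x, Matrix (Fin (n x)) (Fin (n x)) k) : (Σ x, Fin (n x) × Fin (n x)) → k :=
  fun c => h c.1 c.2.1 c.2.2

/-- Right translation. -/
noncomputable def Tr (g : ∀ x, Matrix (Fin (n x)) (Fin (n x)) k) :
    MvPolynomial (Σ x, Fin (n x) × Fin (n x)) k →ₐ[k] MvPolynomial (Σ x, Fin (n x) × Fin (n x)) k :=
  MvPolynomial.aeval fun c => ∑ b, MvPolynomial.C (g c.1 b c.2.2) * MvPolynomial.X ⟨c.1, (c.2.1, b)⟩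

/-- The left invariant derivation. -/
noncomputable def Dv (T : ∀ x, Matrix (Fin (n x)) (Fin (n x)) k) :
    Derivation k (MvPolynomial (Σ x, Fin (n x) × Fin (n x)) k)
      (MvPolynomial (Σ x, Fin (n x) × Fin (n x)) k) :=
  MvPolynomial.mkDerivation k fun c =>
    ∑ b, MvPolynomial.C (T c.1 b c.2.2) * MvPolynomial.X ⟨c.1, (c.2.1, b)⟩

lemma eval_Tr (h g : ∀ x, Matrix (Fin (n x)) (Fin (n x)) k)
    (f : MvPolynomial (Σ x, Fin (n x) × Fin (n x)) k) :
    MvPolynomial.eval (pt h) (Tr g f) = MvPolynomial.eval (pt (h * g)) f := by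
  have e : (MvPolynomial.eval (pt h)).comp (Tr g : _ →+* _) = MvPolynomial.eval (pt (h * g)) := by
    apply MvPolynomial.ringHom_ext
    · intro r
      simp [Tr]
    · intro c
      simp only [Tr, RingHom.comp_apply, RingHom.coe_coe, MvPolynomial.aeval_X, map_sum, map_mul,
        MvPolynomial.eval_C, MvPolynomial.eval_X, pt, Pi.mul_apply, Matrix.mul_apply]
      exact Finset.sum_congr rfl fun b _ => mul_comm _ _
  exact congrArg (fun F => F f) e

lemma eval_Tr_pow (g : ∀ x, Matrix (Fin (n x)) (Fin (n x)) k) (m : ℕ) :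
    ∀ (h : ∀ x, Matrix (Fin (n x)) (Fin (n x)) k) (f : MvPolynomial (Σ x, Fin (n x) × Fin (n x)) k),
    MvPolynomial.eval (pt h) (((Tr g).toLinearMap ^ m) f) = MvPolynomial.eval (pt (h * g ^ m)) f := by
  induction m with
  | zero => intro h f; simp
  | succ m ih =>
    intro h f
    rw [pow_succ', Module.End.mul_apply, AlgHom.toLinearMap_apply, eval_Tr, ih, mul_assoc, ← pow_succ']

lemma coeff_Dv (T : ∀ x, Matrix (Fin (n x)) (Fin (n x)) k)
    (f : MvPolynomial (Σ x, Fin (n x) × Fin (n x)) k) :
    (MvPolynomial.aeval (fun c : Σ x, Fin (n x) × Fin (n x) =>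
      Polynomial.C ((1 : Matrix (Fin (n c.1)) (Fin (n c.1)) k) c.2.1 c.2.2) +
      Polynomial.C (T c.1 c.2.1 c.2.2) * Polynomial.X) f : Polynomial k).coeff 0 =
      MvPolynomial.eval (pt (1 : ∀ x, Matrix (Fin (n x)) (Fin (n x)) k)) f ∧
    (MvPolynomial.aeval (fun c : Σ x, Fin (n x) × Fin (n x) =>
      Polynomial.C ((1 : Matrix (Fin (n c.1)) (Fin (n c.1)) k) c.2.1 c.2.2) +
      Polynomial.C (T c.1 c.2.1 c.2.2) * Polynomial.X) f : Polynomial k).coeff 1 =
      MvPolynomial.eval (pt (1 : ∀ x, Matrix (Fin (n x)) (Fin (n x)) k)) (Dv T f) := by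
  induction f using MvPolynomial.induction_on with
  | C a =>
    constructor
    · simp
    · rw [MvPolynomial.derivation_C]
      simp
  | add p q hp hq =>
    refine ⟨?_, ?_⟩
    · rw [map_add, Polynomial.coeff_add, hp.1, hq.1, map_add]
    · rw [map_add, Polynomial.coeff_add, hp.2, hq.2, map_add, map_add]
  | mul_X p c hp =>
    have h0 : (Polynomial.C ((1 : Matrix (Fin (n c.1)) (Fin (n c.1)) k) c.2.1 c.2.2) +
      Polynomial.C (T c.1 c.2.1 c.2.2) * Polynomial.X : Polynomial k).coeff 0 =
        (1 : Matrix (Fin (n c.1)) (Fin (n c.1)) k) c.2.1 c.2.2 := by simp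
    have h1 : (Polynomial.C ((1 : Matrix (Fin (n c.1)) (Fin (n c.1)) k) c.2.1 c.2.2) +
      Polynomial.C (T c.1 c.2.1 c.2.2) * Polynomial.X : Polynomial k).coeff 1 =
        T c.1 c.2.1 c.2.2 := by
      rw [Polynomial.coeff_add, Polynomial.coeff_C_mul, Polynomial.coeff_X_one,
        Polynomial.coeff_C_of_ne_zero one_ne_zero, zero_add, mul_one]
    refine ⟨?_, ?_⟩
    · rw [map_mul, MvPolynomial.aeval_X, Polynomial.mul_coeff_zero, hp.1, h0, map_mul,
        MvPolynomial.eval_X]
      rfl
    · rw [map_mul, MvPolynomial.aeval_X, Polynomial.mul_coeff_one, hp.1, hp.2, h0, h1,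
        Derivation.leibniz]
      simp only [map_add, smul_eq_mul, map_mul, MvPolynomial.eval_X, Dv,
        MvPolynomial.mkDerivation_X, map_sum, MvPolynomial.eval_C, pt, Pi.one_apply]
      have e : ∑ b, T c.1 b c.2.2 * (1 : Matrix (Fin (n c.1)) (Fin (n c.1)) k) c.2.1 b =
          T c.1 c.2.1 c.2.2 := by
        have := congrArg (fun M : Matrix (Fin (n c.1)) (Fin (n c.1)) k => M c.2.1 c.2.2)
          (one_mul (T c.1))
        rw [← this]
        change _ = ((1 : Matrix (Fin (n c.1)) (Fin (n c.1)) k) * T c.1) c.2.1 c.2.2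
        rw [Matrix.mul_apply]
        exact Finset.sum_congr rfl fun b _ => mul_comm _ _
      rw [e]
      ring

/-- The linear form in the `a`-th row of the matrix with index `x` given by the vector `u`. -/
noncomputable def lf (x : X) (a : Fin (n x)) :
    (Fin (n x) → k) →ₗ[k] MvPolynomial (Σ x, Fin (n x) × Fin (n x)) k where
  toFun u := ∑ b, u b • MvPolynomial.X ⟨x, (a, b)⟩
  map_add' u v := by
    rw [← Finset.sum_add_distrib]
    exact Finset.sum_congr rfl fun b _ => by rw [Pi.add_apply, add_smul]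
  map_smul' c u := by
    rw [Finset.smul_sum]
    exact Finset.sum_congr rfl fun b _ => by rw [Pi.smul_apply, smul_eq_mul, mul_smul, RingHom.id_apply]

lemma lf_apply (x : X) (a : Fin (n x)) (u : Fin (n x) → k) :
    lf x a u = ∑ b, u b • MvPolynomial.X (R := k) (⟨x, (a, b)⟩ : Σ x, Fin (n x) × Fin (n x)) := rfl

lemma lf_mulVec (g : ∀ x, Matrix (Fin (n x)) (Fin (n x)) k) (x : X) (a : Fin (n x))
    (u : Fin (n x) → k) :
    ∑ b, u b • (∑ c, MvPolynomial.C (g x c b) * MvPolynomial.X (⟨x, (a, c)⟩ : Σ x, Fin (n x) × Fin (n x))) =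
      lf x a ((g x).mulVec u) := by
  rw [lf_apply]
  simp only [Finset.smul_sum, Matrix.mulVec, dotProduct, Finset.sum_smul]
  rw [Finset.sum_comm]
  refine Finset.sum_congr rfl fun c _ => Finset.sum_congr rfl fun b _ => ?_
  rw [MvPolynomial.C_mul', smul_smul, mul_comm]

lemma Tr_lf (g : ∀ x, Matrix (Fin (n x)) (Fin (n x)) k) (x : X) (a : Fin (n x)) (u : Fin (n x) → k) :
    Tr g (lf x a u) = lf x a ((g x).mulVec u) := by
  rw [← lf_mulVec, lf_apply, map_sum]
  refine Finset.sum_congr rfl fun b _ => ?_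
  rw [map_smul, Tr, MvPolynomial.aeval_X]

lemma Dv_lf (g : ∀ x, Matrix (Fin (n x)) (Fin (n x)) k) (x : X) (a : Fin (n x)) (u : Fin (n x) → k) :
    Dv g (lf x a u) = lf x a ((g x).mulVec u) := by
  rw [← lf_mulVec, lf_apply, map_sum]
  refine Finset.sum_congr rfl fun b _ => ?_
  rw [Derivation.map_smul, Dv, MvPolynomial.mkDerivation_X]

lemma Tr_pow_lf (g : ∀ x, Matrix (Fin (n x)) (Fin (n x)) k) (x : X) (a : Fin (n x)) (β : k) (m : ℕ) :
    ∀ u : Fin (n x) → k, (((Tr g).toLinearMap - β • (1 : Module.End k (MvPolynomial (Σ x, Fin (n x) × Fin (n x)) k))) ^ m) (lf x a u) =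
      lf x a (((Matrix.toLin' (g x) - β • (1 : Module.End k (Fin (n x) → k))) ^ m) u) := by
  induction m with
  | zero => intro u; simp
  | succ m ih =>
    intro u
    rw [pow_succ, Module.End.mul_apply, pow_succ, Module.End.mul_apply, ← ih]
    congr 1
    simp only [LinearMap.sub_apply, AlgHom.toLinearMap_apply, LinearMap.smul_apply,
      Module.End.one_apply, map_sub, map_smul, Tr_lf, Matrix.toLin'_apply]

variable [IsAlgClosed k]

/-- **Chevalley.** A function of the matrices `g x`, given by an additive function `w` of the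
eigenvalues, is tangent to the Zariski closure of the powers of `g`. -/
theorem tangent_of_powers (g : ∀ x, Matrix (Fin (n x)) (Fin (n x)) k) (M : Submonoid k) (w : k → k)
    (hM : ∀ x, ∀ β ∈ (g x).charpoly.roots, β ∈ M) (hw1 : w 1 = 0)
    (hw : ∀ a ∈ M, ∀ b ∈ M, w (a * b) = w a + w b) (q : X → Polynomial k)
    (hq : ∀ x, ∀ β ∈ (g x).charpoly.roots,
      (Polynomial.X - Polynomial.C β) ^ (n x) ∣ q x - Polynomial.C (w β))
    (f : MvPolynomial (Σ x, Fin (n x) × Fin (n x)) k)
    (hf : ∀ m : ℕ, MvPolynomial.eval (pt (g ^ m)) f = 0) :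
    (MvPolynomial.aeval (fun c : Σ x, Fin (n x) × Fin (n x) =>
      Polynomial.C ((1 : Matrix (Fin (n c.1)) (Fin (n c.1)) k) c.2.1 c.2.2) +
      Polynomial.C ((Polynomial.aeval (g c.1) (q c.1)) c.2.1 c.2.2) * Polynomial.X) f :
        Polynomial k).coeff 1 = 0 := by
  classical
  set T : ∀ x, Matrix (Fin (n x)) (Fin (n x)) k := fun x => Polynomial.aeval (g x) (q x) with hT
  have h0 := (coeff_Dv T f).2
  refine h0.trans ?_
  set S : Set (MvPolynomial (Σ x, Fin (n x) × Fin (n x)) k) := {f | ∃ β ∈ M,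
      (∃ m : ℕ, (((Tr g).toLinearMap - β • (1 : Module.End k (MvPolynomial (Σ x, Fin (n x) × Fin (n x)) k))) ^ m) f = 0) ∧
      Dv T f = w β • f} with hS
  have hone : (1 : MvPolynomial (Σ x, Fin (n x) × Fin (n x)) k) ∈ S := by
    refine ⟨1, M.one_mem, ⟨1, ?_⟩, ?_⟩
    · simp
    · rw [hw1, zero_smul, Derivation.map_one_eq_zero]
  have hmul : ∀ a ∈ S, ∀ b ∈ S, a * b ∈ S := by
    rintro a ⟨α, hα, ⟨m1, h1⟩, h2⟩ b ⟨β, hβ, ⟨m2, h3⟩, h4⟩
    refine ⟨α * β, M.mul_mem hα hβ, ⟨m1 + m2, gen_mul (Tr g) α β _ m1 m2 rfl a b h1 h3⟩, ?_⟩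
    rw [Derivation.leibniz, h2, h4, hw α hα β hβ, add_smul, smul_comm, smul_eq_mul, smul_comm,
      smul_eq_mul, mul_comm b a, add_comm]
  have hspan_mul : ∀ a ∈ Submodule.span k S, ∀ b ∈ Submodule.span k S, a * b ∈ Submodule.span k S := by
    intro a ha b hb
    have h1 := Submodule.mul_mem_mul ha hb
    rw [Submodule.span_mul_span] at h1
    refine Submodule.span_mono ?_ h1
    rintro _ ⟨a, ha, b, hb, rfl⟩
    exact hmul a ha b hb
  have hlf : ∀ (x : X) (a : Fin (n x)) (u : Fin (n x) → k), lf x a u ∈ Submodule.span k S := by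
    intro x a u
    have hu : u ∈ ⨆ β, Module.End.maxGenEigenspace (Matrix.toLin' (g x)) β := by
      rw [Module.End.iSup_maxGenEigenspace_eq_top]; exact Submodule.mem_top
    induction hu using Submodule.iSup_induction' with
    | mem β u hu =>
      by_cases h0 : Module.End.maxGenEigenspace (Matrix.toLin' (g x)) β = ⊥
      · rw [h0] at hu
        rw [(Submodule.mem_bot k).1 hu, map_zero]
        exact Submodule.zero_mem _
      · have hβ : β ∈ (g x).charpoly.roots := by
          have h1 : β ∈ (Matrix.toLin' (g x)).charpoly.roots := by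
            rw [Polynomial.mem_roots (LinearMap.charpoly_monic _).ne_zero,
              ← Polynomial.rootMultiplicity_pos (LinearMap.charpoly_monic _).ne_zero,
              ← LinearMap.finrank_maxGenEigenspace_eq]
            rw [Module.finrank_pos_iff]
            exact (Submodule.nontrivial_iff_ne_bot).2 h0
          rwa [Matrix.charpoly_toLin'] at h1
        apply Submodule.subset_span
        refine ⟨β, hM x β hβ, ?_, ?_⟩
        · rw [Module.End.maxGenEigenspace_eq_genEigenspace_finrank] at hu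
          have h2 := Module.End.mem_genEigenspace_nat.1 hu
          rw [LinearMap.mem_ker] at h2
          refine ⟨finrank k (Fin (n x) → k), ?_⟩
          rw [Tr_pow_lf, h2, map_zero]
        · rw [Dv_lf, ← map_smul]
          congr 1
          have h3 := aeval_gen (Matrix.toLin' (g x)) β (w β) (q x)
            (by rw [Module.finrank_fin_fun]; exact hq x β hβ) hu
          rw [← h3]
          have h4 : Polynomial.aeval (Matrix.toLin' (g x)) (q x) = Matrix.toLin' (T x) := by
            have := Polynomial.aeval_algHom_apply (Matrix.toLinAlgEquiv' (R := k) (n := Fin (n x))).toAlgHom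
              (g x) (q x)
            exact this
          rw [h4, Matrix.toLin'_apply]
    | zero => rw [map_zero]; exact Submodule.zero_mem _
    | add u v _ _ hu hv => rw [map_add]; exact Submodule.add_mem _ hu hv
  have hX : ∀ c : Σ x, Fin (n x) × Fin (n x), (MvPolynomial.X c : MvPolynomial _ k) ∈
      Submodule.span k S := by
    rintro ⟨x, a, b⟩
    have := hlf x a (Pi.single b 1)
    rw [lf_apply, Finset.sum_eq_single b] at this
    · simpa using this
    · intro c _ hc
      rw [Pi.single_eq_of_ne hc, zero_smul]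
    · intro h; exact absurd (Finset.mem_univ b) h
  have hall : ∀ f : MvPolynomial (Σ x, Fin (n x) × Fin (n x)) k, f ∈ Submodule.span k S := by
    intro f
    induction f using MvPolynomial.induction_on with
    | C a =>
      have : (MvPolynomial.C a : MvPolynomial (Σ x, Fin (n x) × Fin (n x)) k) = a • 1 := by
        rw [MvPolynomial.smul_eq_C_mul, mul_one]
      rw [this]
      exact Submodule.smul_mem _ _ (Submodule.subset_span hone)
    | add p q hp hq => exact Submodule.add_mem _ hp hq
    | mul_X p c hp => exact hspan_mul _ hp _ (hX c)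
  obtain ⟨r, hr⟩ := exists_poly_deriv (Tr g) (Dv T) w f (by
    refine Submodule.span_mono ?_ (hall f)
    rintro f ⟨β, -, h⟩
    exact ⟨β, h⟩)
  rw [hr, Polynomial.aeval_eq_sum_range, LinearMap.sum_apply, map_sum]
  refine Finset.sum_eq_zero fun m _ => ?_
  rw [LinearMap.smul_apply, MvPolynomial.smul_eval, eval_Tr_pow, one_mul, hf, mul_zero]

end tang

end Pool.Agent.W2helper27.OP
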