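import Pool.Agent.W528.Ord.AllEll
import Pool.Agent.W2helper27.OP.LieG
import Pool.Agent.W2helper27.OP.Maj

/-! The valuation of the algebraic closure of `ℚ_p`, and traces of semisimple matrices. -/

set_option autoImplicit false

namespace Pool.Agent.W2helper27.OP

open Polynomial Matrix

section val

variable {p : ℕ} [hp : Fact p.Prime]

lemma base_pos : (0 : ℝ) < 1 / (p : ℝ) := by
  have : (0 : ℝ) < p := by exact_mod_cast hp.out.pos
  positivity

lemma base_lt : 1 / (p : ℝ) < 1 := by
  have h : (1 : ℝ) < p := by exact_mod_cast hp.out.one_lt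
  rw [div_lt_one (by linarith)]
  exact h

lemma exists_val (y : PadicAlgCl p) (hy : y ≠ 0) : ∃ w : ℚ, ‖y‖ = (1 / (p : ℝ)) ^ (w : ℝ) := by
  have h := spectralNorm.spectralNorm_eq_norm_coeff_zero_rpow (K := ℚ_[p]) (L := PadicAlgCl p) y
  rw [PadicAlgCl.spectralNorm_eq] at h
  have h0 : (minpoly ℚ_[p] y).coeff 0 ≠ 0 := by
    have hint : IsIntegral ℚ_[p] y := Algebra.IsIntegral.isIntegral y
    exact minpoly.coeff_zero_ne_zero hint hy
  have hn := Padic.norm_eq_zpow_neg_valuation h0
  refine ⟨((minpoly ℚ_[p] y).coeff 0).valuation / ((minpoly ℚ_[p] y).natDegree : ℚ), ?_⟩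
  rw [h, hn]
  have hp0 : (0 : ℝ) < p := by exact_mod_cast hp.out.pos
  rw [← Real.rpow_intCast, ← Real.rpow_mul hp0.le, one_div (p : ℝ), Real.inv_rpow hp0.le,
    ← Real.rpow_neg hp0.le]
  congr 1
  push_cast
  ring

/-- The valuation of the algebraic closure of `ℚ_p`, with value `1` at `p`. -/
noncomputable def val (y : PadicAlgCl p) : ℚ :=
  open Classical in if h : y ≠ 0 then (exists_val y h).choose else 0

lemma norm_val {y : PadicAlgCl p} (hy : y ≠ 0) : ‖y‖ = (1 / (p : ℝ)) ^ (val y : ℝ) := by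
  rw [val, dif_pos hy]
  exact (exists_val y hy).choose_spec

lemma rpow_inj {a b : ℚ} (h : (1 / (p : ℝ)) ^ (a : ℝ) = (1 / (p : ℝ)) ^ (b : ℝ)) : a = b := by
  have h1 := (Real.rpow_le_rpow_left_iff_of_base_lt_one base_pos base_lt).1 h.le
  have h2 := (Real.rpow_le_rpow_left_iff_of_base_lt_one base_pos base_lt).1 h.ge
  exact_mod_cast le_antisymm h2 h1

lemma val_mul {x y : PadicAlgCl p} (hx : x ≠ 0) (hy : y ≠ 0) : val (x * y) = val x + val y := by
  apply rpow_inj (p := p)
  rw [← norm_val (mul_ne_zero hx hy), norm_mul, norm_val hx, norm_val hy, Rat.cast_add,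
    Real.rpow_add base_pos]

lemma val_one : val (1 : PadicAlgCl p) = 0 := by
  apply rpow_inj (p := p)
  rw [← norm_val one_ne_zero, norm_one, Rat.cast_zero, Real.rpow_zero]

end val

section mat

variable {k : Type} [Field k]

/-- The matrix `T` is diagonalizable with the eigenvalues `h`. -/
def HasEigenvalues {n : ℕ} (T : Matrix (Fin n) (Fin n) k) (h : List ℕ) : Prop :=
  h.length = n ∧ ∃ P P' : Matrix (Fin n) (Fin n) k, P * P' = 1 ∧
    T = P * Matrix.diagonal (fun a : Fin n => ((h.getD a 0 : ℕ) : k)) * P'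

lemma sum_getD {n : ℕ} (h : List ℕ) (hn : h.length = n) (F : ℕ → k) :
    ∑ a : Fin n, F (h.getD a 0) = (h.map F).sum := by
  subst hn
  rw [← List.sum_ofFn]
  congr 1
  apply List.ext_get
  · simp
  · intro i h1 h2
    simp

lemma HasEigenvalues.trace {n : ℕ} {T : Matrix (Fin n) (Fin n) k} {h : List ℕ}
    (H : HasEigenvalues T h) : Matrix.trace T = (h.map fun a : ℕ => (a : k)).sum ∧
      Matrix.trace (T * T) = (h.map fun a : ℕ => (a : k) ^ 2).sum := by
  obtain ⟨hn, P, P', hP, rfl⟩ := H
  have hP' : P' * P = 1 := mul_eq_one_comm.1 hP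
  constructor
  · rw [Matrix.trace_mul_comm, ← mul_assoc, hP', one_mul, Matrix.trace_diagonal]
    exact sum_getD h hn (fun a : ℕ => (a : k))
  · have e : P * Matrix.diagonal (fun a : Fin n => ((h.getD a 0 : ℕ) : k)) * P' *
        (P * Matrix.diagonal (fun a : Fin n => ((h.getD a 0 : ℕ) : k)) * P') =
        P * (Matrix.diagonal (fun a : Fin n => ((h.getD a 0 : ℕ) : k)) *
          Matrix.diagonal (fun a : Fin n => ((h.getD a 0 : ℕ) : k))) * P' := by
      calc _ = P * Matrix.diagonal (fun a : Fin n => ((h.getD a 0 : ℕ) : k)) * (P' * P) *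
            Matrix.diagonal (fun a : Fin n => ((h.getD a 0 : ℕ) : k)) * P' := by
              simp only [mul_assoc]
        _ = _ := by rw [hP', mul_one]; simp only [mul_assoc]
    rw [e, Matrix.trace_mul_comm, ← mul_assoc, hP', one_mul, Matrix.diagonal_mul_diagonal,
      Matrix.trace_diagonal]
    rw [← sum_getD h hn (fun a : ℕ => (a : k) ^ 2)]
    exact Finset.sum_congr rfl fun a _ => by ring

lemma HasEigenvalues.scalar {n : ℕ} {T : Matrix (Fin n) (Fin n) k} {h : List ℕ}
    (H : HasEigenvalues T h) {c : ℕ} (hc : ∀ a ∈ h, a = c) : T = (c : k) • 1 := by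
  obtain ⟨hn, P, P', hP, rfl⟩ := H
  have e : Matrix.diagonal (fun a : Fin n => ((h.getD a 0 : ℕ) : k)) = (c : k) • 1 := by
    rw [← Matrix.diagonal_one, ← Matrix.diagonal_smul]
    congr 1
    funext a
    have h1 : h.getD a 0 = c := by
      apply hc
      rw [List.getD_eq_getElem _ _ (by rw [hn]; exact a.2)]
      exact List.getElem_mem _
    rw [h1]
    simp
  rw [e, mul_smul_comm, mul_one, smul_mul_assoc, hP]

end mat

/-- If `n Σ a² = (Σ a)²` then all the `a` are equal. -/
lemma const_of_sq (h : List ℕ) (H : (h.length : ℚ) * (h.map fun a : ℕ => (a : ℚ) ^ 2).sum =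
    (h.map fun a : ℕ => (a : ℚ)).sum ^ 2) : ∃ c : ℕ, ∀ a ∈ h, a = c := by
  rcases h with _ | ⟨b, h'⟩
  · exact ⟨0, fun a ha => absurd ha (by simp)⟩
  set l := b :: h' with hl
  have hl0 : (0 : ℚ) < l.length := by
    rw [hl, List.length_cons]; positivity
  set c : ℚ := (l.map fun a : ℕ => (a : ℚ)).sum / l.length with hc
  have key : ∀ L : List ℕ, (L.map fun a : ℕ => ((a : ℚ) - c) ^ 2).sum =
      (L.map fun a : ℕ => (a : ℚ) ^ 2).sum - 2 * c * (L.map fun a : ℕ => (a : ℚ)).sum +
        L.length * c ^ 2 := by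
    intro L
    induction L with
    | nil => simp
    | cons a L ih =>
      simp only [List.map_cons, List.sum_cons, ih, List.length_cons]
      push_cast
      ring
  have h0 : (l.map fun a : ℕ => ((a : ℚ) - c) ^ 2).sum = 0 := by
    rw [key]
    have h1 : (l.map fun a : ℕ => (a : ℚ)).sum = l.length * c := by
      rw [hc]; field_simp
    have h2 : (l.map fun a : ℕ => (a : ℚ) ^ 2).sum = l.length * c ^ 2 := by
      rw [h1] at H
      have : (l.length : ℚ) * (l.map fun a : ℕ => (a : ℚ) ^ 2).sum = l.length * (l.length * c ^ 2) := by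
        rw [H]; ring
      exact mul_left_cancel₀ hl0.ne' this
    rw [h1, h2]; ring
  have hall : ∀ a ∈ l, (a : ℚ) = c := by
    have gen : ∀ L : List ℕ, (L.map fun a : ℕ => ((a : ℚ) - c) ^ 2).sum = 0 →
        ∀ a ∈ L, (a : ℚ) = c := by
      intro L
      induction L with
      | nil => intro _ a ha; exact absurd ha (by simp)
      | cons b L ih =>
        intro hL a ha
        rw [List.map_cons, List.sum_cons] at hL
        have hpos : 0 ≤ (L.map fun a : ℕ => ((a : ℚ) - c) ^ 2).sum := by
          apply List.sum_nonneg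
          intro x hx
          obtain ⟨y, -, rfl⟩ := List.mem_map.1 hx
          positivity
        have hb : ((b : ℚ) - c) ^ 2 = 0 := le_antisymm (by linarith) (by positivity)
        rcases List.mem_cons.1 ha with rfl | ha
        · have := pow_eq_zero_iff (two_ne_zero) |>.1 hb
          linarith
        · exact ih (by linarith) a ha
    exact gen l h0
  refine ⟨b, fun a ha => ?_⟩
  have h1 := hall a ha
  have h2 := hall b (by rw [hl]; simp)
  exact_mod_cast h1.trans h2.symm

end Pool.Agent.W2helper27.OP
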